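import Mathlib

set_option autoImplicit false

namespace Pool.Agent.Results.MP_7f3d09_an.SlowDecay

open Real Polynomial

/-- Causal matrix-valued sequences of size `p × q`. -/
abbrev MSeq (p q : ℕ) : Type := ℕ → Matrix (Fin p) (Fin q) ℝ

/-- Membership in the space of absolutely summable matrix sequences. -/
def IsL1 {p q : ℕ} (X : MSeq p q) : Prop :=
  ∀ (i : Fin p) (j : Fin q), Summable (fun k : ℕ => |X k i j|)

/-- The convolution product of two causal matrix sequences. -/
def conv {p q r : ℕ} (X : MSeq p q) (Y : MSeq q r) : MSeq p r :=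
  fun k => ∑ t ∈ Finset.range (k + 1), X t * Y (k - t)

/-- The norm: the maximum over the rows of the sum of the absolute values of the row entries. -/
noncomputable def norm1 {p q : ℕ} (X : MSeq p q) : ℝ :=
  ⨆ i : Fin p, ∑ j : Fin q, ∑' k : ℕ, |X k i j|

/-- `R` is the transform of `X`: entrywise, the power series with coefficients `X k i j` equals the
quotient of the numerator and the denominator of the rational function `R i j`. -/
def IsTransform {p q : ℕ} (R : Matrix (Fin p) (Fin q) (RatFunc ℝ)) (X : MSeq p q) : Prop :=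
  ∀ (i : Fin p) (j : Fin q),
    PowerSeries.mk (fun k => X k i j) * (((R i j).denom : ℝ[X]) : PowerSeries ℝ)
      = (((R i j).num : ℝ[X]) : PowerSeries ℝ)

/-- A matrix sequence is rational when its transform is a matrix of rational functions. -/
def IsRational {p q : ℕ} (X : MSeq p q) : Prop :=
  ∃ R : Matrix (Fin p) (Fin q) (RatFunc ℝ), IsTransform R X

/-- `Q` is an optimal solution of the problem `min ‖H - U Q V‖`. -/
def IsOptimal {p q r s : ℕ} (H : MSeq p q) (U : MSeq p r) (V : MSeq s q) (Q : MSeq r s) : Prop :=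
  IsL1 Q ∧ ∀ Q' : MSeq r s, IsL1 Q' →
    norm1 (H - conv (conv U Q) V) ≤ norm1 (H - conv (conv U Q') V)

/-- Exponential decay: all entries of `X k` are at most `M ρ^k` for some `M > 0` and `ρ < 1`. -/
def ExpDecay {p q : ℕ} (X : MSeq p q) : Prop :=
  ∃ M ρ : ℝ, 0 < M ∧ ρ < 1 ∧ ∀ (k : ℕ) (i : Fin p) (j : Fin q), |X k i j| ≤ M * ρ ^ k

/-- The unit for convolution. -/
def unitSeq (n : ℕ) : MSeq n n := fun k => if k = 0 then 1 else 0

/-! ### The rotation angle -/

/-- The angle, an irrational multiple of `2π`. -/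
noncomputable def theta : ℝ := 2 * π * goldenRatio

lemma one_sub_cos_sub_le (x y : ℝ) :
    1 - cos (x - y) ≤ 2 * (1 - cos x) + 2 * (1 - cos y) := by
  rw [Real.cos_sub]
  nlinarith [sq_nonneg (cos x + cos y - 2), sq_nonneg (sin x + sin y), sin_sq_add_cos_sq x,
    sin_sq_add_cos_sq y]

lemma cos_mul_theta_lt_one {i : ℕ} (hi : 0 < i) : cos (i * theta) < 1 := by
  rcases lt_or_eq_of_le (cos_le_one (i * theta)) with h | h
  · exact h
  · exfalso
    rw [Real.cos_eq_one_iff] at h
    obtain ⟨n, hn⟩ := h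
    have h1 : (n : ℝ) = i * goldenRatio := by
      have : (2 * π) * (n : ℝ) = (2 * π) * (i * goldenRatio) := by
        rw [theta] at hn; linarith
      exact mul_left_cancel₀ (by positivity) this
    have h2 : Irrational ((i : ℝ) * goldenRatio) :=
      goldenRatio_irrational.natCast_mul hi.ne'
    exact h2.ne_int n h1.symm

lemma cos_fib_theta (n : ℕ) : cos (Nat.fib n * theta) = cos (2 * π * goldenConj ^ n) := by
  have h := fib_succ_sub_goldenRatio_mul_fib n
  have h1 : (Nat.fib n : ℝ) * theta = (Nat.fib (n + 1) : ℕ) * (2 * π) - 2 * π * goldenConj ^ n := by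
    rw [← h, theta]; ring
  rw [h1, Real.cos_nat_mul_two_pi_sub]

lemma abs_goldenConj_lt_one : |goldenConj| < 1 := by
  rw [abs_lt]
  exact ⟨neg_one_lt_goldenConj, goldenConj_neg.trans one_pos⟩

lemma fib_mul_abs_goldenConj_pow_le (n : ℕ) : (Nat.fib n : ℝ) * |goldenConj| ^ n ≤ 1 := by
  rw [coe_fib_eq]
  have h5 : (2 : ℝ) ≤ √5 := by
    rw [show (2 : ℝ) = √4 by rw [show (4 : ℝ) = 2 ^ 2 by norm_num, Real.sqrt_sq (by norm_num)]]
    exact Real.sqrt_le_sqrt (by norm_num)
  have h5' : 0 < √5 := by linarith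
  rw [div_mul_eq_mul_div, div_le_one h5']
  have h1 : (goldenRatio ^ n - goldenConj ^ n) * |goldenConj| ^ n
      ≤ |goldenRatio * goldenConj| ^ n + (|goldenConj| ^ n) * (|goldenConj| ^ n) := by
    have e1 : goldenRatio ^ n * |goldenConj| ^ n = |goldenRatio * goldenConj| ^ n := by
      rw [abs_mul, mul_pow, abs_of_pos goldenRatio_pos]
    have e2 : -(goldenConj ^ n) ≤ |goldenConj| ^ n := by
      rw [← abs_pow]; exact neg_le_abs _
    have e3 : 0 ≤ |goldenConj| ^ n := by positivity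
    nlinarith
  have h2 : |goldenRatio * goldenConj| = 1 := by
    rw [goldenRatio_mul_goldenConj]; norm_num
  have h3 : |goldenConj| ^ n ≤ 1 := pow_le_one₀ (abs_nonneg _) abs_goldenConj_lt_one.le
  have h4 : (0 : ℝ) ≤ |goldenConj| ^ n := by positivity
  rw [h2, one_pow] at h1
  nlinarith

lemma fib_one_sub_cos_le (n : ℕ) :
    (Nat.fib n : ℝ) * (1 - cos (Nat.fib n * theta)) ≤ 2 * π ^ 2 * |goldenConj| ^ n := by
  rw [cos_fib_theta]
  have h1 : 1 - cos (2 * π * goldenConj ^ n) ≤ (2 * π * goldenConj ^ n) ^ 2 / 2 := by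
    have := Real.one_sub_sq_div_two_le_cos (x := 2 * π * goldenConj ^ n)
    linarith
  have h2 : (2 * π * goldenConj ^ n) ^ 2 / 2 = 2 * π ^ 2 * (|goldenConj| ^ n * |goldenConj| ^ n) := by
    have : goldenConj ^ n * goldenConj ^ n = |goldenConj| ^ n * |goldenConj| ^ n := by
      rw [← abs_pow, abs_mul_abs_self]
    nlinarith [this]
  have h3 := fib_mul_abs_goldenConj_pow_le n
  have h4 : (0 : ℝ) ≤ |goldenConj| ^ n := by positivity
  have h5 : (0 : ℝ) ≤ (Nat.fib n : ℝ) := by positivity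
  calc (Nat.fib n : ℝ) * (1 - cos (2 * π * goldenConj ^ n))
      ≤ (Nat.fib n : ℝ) * (2 * π ^ 2 * (|goldenConj| ^ n * |goldenConj| ^ n)) := by
        rw [← h2]; exact mul_le_mul_of_nonneg_left h1 h5
    _ = 2 * π ^ 2 * |goldenConj| ^ n * ((Nat.fib n : ℝ) * |goldenConj| ^ n) := by ring
    _ ≤ 2 * π ^ 2 * |goldenConj| ^ n * 1 := by
        apply mul_le_mul_of_nonneg_left h3; positivity
    _ = _ := by ring

/-- The normalising constant. -/
noncomputable def Cc : ℝ := 2 / (1 - cos theta)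

lemma one_sub_cos_theta_pos : 0 < 1 - cos theta := by
  have := cos_mul_theta_lt_one (i := 1) one_pos
  rw [Nat.cast_one, one_mul] at this
  linarith

lemma Cc_pos : 0 < Cc := div_pos two_pos one_sub_cos_theta_pos

/-- The sequence `C (k+1) (1 - cos ((k+1) θ)) - 1`. -/
noncomputable def x0 (k : ℕ) : ℝ := Cc * ((k + 1 : ℝ) * (1 - cos ((k + 1 : ℝ) * theta))) - 1

lemma x0_zero : x0 0 = 1 := by
  unfold x0 Cc
  have h := one_sub_cos_theta_pos.ne'
  simp only [CharP.cast_eq_zero, zero_add, one_mul]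
  rw [div_mul_cancel₀ _ h]; norm_num

lemma neg_one_le_x0 (k : ℕ) : -1 ≤ x0 k := by
  unfold x0
  have h1 : 0 ≤ (k + 1 : ℝ) * (1 - cos ((k + 1 : ℝ) * theta)) :=
    mul_nonneg (by positivity) (by linarith [cos_le_one ((k + 1 : ℝ) * theta)])
  have := mul_nonneg Cc_pos.le h1
  linarith

lemma x0_le (k : ℕ) : x0 k ≤ 2 * Cc * (k + 1) := by
  unfold x0
  have h1 : (k + 1 : ℝ) * (1 - cos ((k + 1 : ℝ) * theta)) ≤ (k + 1 : ℝ) * 2 :=
    mul_le_mul_of_nonneg_left (by linarith [neg_one_le_cos ((k + 1 : ℝ) * theta)]) (by positivity)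
  have := mul_le_mul_of_nonneg_left h1 Cc_pos.le
  linarith

/-- For large Fibonacci numbers the sequence `x0` is close to `-1`. -/
lemma exists_fib_bound : ∃ n0 : ℕ, 3 ≤ n0 ∧ ∀ n, n0 ≤ n → x0 (Nat.fib n - 1) < -(1 / 2) := by
  have hlim : Filter.Tendsto (fun n : ℕ => (Cc * (2 * π ^ 2)) * |goldenConj| ^ n)
      Filter.atTop (nhds 0) := by
    have := (tendsto_pow_atTop_nhds_zero_of_lt_one (abs_nonneg goldenConj)
      abs_goldenConj_lt_one).const_mul (Cc * (2 * π ^ 2))
    simpa using this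
  have h1 := hlim.eventually (gt_mem_nhds (show (0 : ℝ) < 1 / 2 by norm_num))
  obtain ⟨N, hN⟩ := Filter.eventually_atTop.mp h1
  refine ⟨max N 3, le_max_right _ _, ?_⟩
  intro n hn
  have h2 := hN n ((le_max_left _ _).trans hn)
  have hpos : 0 < Nat.fib n := Nat.fib_pos.mpr (by omega)
  have hcast : ((Nat.fib n - 1 : ℕ) : ℝ) + 1 = (Nat.fib n : ℝ) := by
    rw [Nat.cast_sub hpos]; simp
  unfold x0
  rw [hcast]
  have h3 := fib_one_sub_cos_le n
  have h4 := mul_le_mul_of_nonneg_left h3 Cc_pos.le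
  linarith

/-- The gaps between the indices at which `x0` is nonpositive tend to infinity. -/
lemma gap (G : ℕ) : ∃ K : ℕ, ∀ k i : ℕ, K ≤ k → 0 < i → i ≤ G → x0 k ≤ 0 → 0 < x0 (k + i) := by
  obtain ⟨δ, hδ, hδ'⟩ : ∃ δ : ℝ, 0 < δ ∧ ∀ i : ℕ, 0 < i → i ≤ G → δ ≤ 1 - cos (i * theta) := by
    rcases Nat.eq_zero_or_pos G with h0 | h0
    · exact ⟨1, one_pos, fun i h1 h2 => by omega⟩
    · have hne : (Finset.Icc 1 G).Nonempty := ⟨1, by simp; omega⟩
      obtain ⟨i0, hi0, hmin⟩ := Finset.exists_min_image (Finset.Icc 1 G)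
        (fun i : ℕ => 1 - cos ((i : ℝ) * theta)) hne
      rw [Finset.mem_Icc] at hi0
      refine ⟨1 - cos ((i0 : ℝ) * theta), by linarith [cos_mul_theta_lt_one (i := i0) (by omega)], ?_⟩
      intro i h1 h2
      exact hmin i (by rw [Finset.mem_Icc]; omega)
  obtain ⟨N, hN⟩ := exists_nat_gt (4 / (Cc * δ))
  refine ⟨N, ?_⟩
  intro k i hk hi hiG hx
  by_contra hcon
  push Not at hcon
  have hk1 : (0 : ℝ) < k + 1 := by positivity
  have key : ∀ j : ℕ, x0 j ≤ 0 → k ≤ j → (Cc * (k + 1)) * (1 - cos ((j + 1 : ℝ) * theta)) ≤ 1 := by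
    intro j hj hkj
    unfold x0 at hj
    have h0 : 0 ≤ 1 - cos ((j + 1 : ℝ) * theta) := by linarith [cos_le_one ((j + 1 : ℝ) * theta)]
    have h1 : (k : ℝ) + 1 ≤ j + 1 := by
      have : (k : ℝ) ≤ j := by exact_mod_cast hkj
      linarith
    have h2 : (k + 1 : ℝ) * (1 - cos ((j + 1 : ℝ) * theta)) ≤ (j + 1 : ℝ) * (1 - cos ((j + 1 : ℝ) * theta)) :=
      mul_le_mul_of_nonneg_right h1 h0
    have h3 := mul_le_mul_of_nonneg_left h2 Cc_pos.le
    nlinarith
  have h1 := key k hx le_rfl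
  have h2 := key (k + i) hcon (by omega)
  have h3 := one_sub_cos_sub_le ((((k + i : ℕ) : ℝ) + 1) * theta) (((k : ℝ) + 1) * theta)
  have h4 : (((k + i : ℕ) : ℝ) + 1) * theta - ((k : ℝ) + 1) * theta = (i : ℝ) * theta := by
    push_cast; ring
  rw [h4] at h3
  have h5 := hδ' i hi hiG
  have h6 : (Cc * (k + 1)) * δ ≤ 4 := by
    have hc : 0 < Cc * (k + 1) := mul_pos Cc_pos hk1
    have := mul_le_mul_of_nonneg_left (h5.trans h3) hc.le
    nlinarith
  have h7 : 4 < (Cc * δ) * (k + 1) := by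
    have hc : 0 < Cc * δ := mul_pos Cc_pos hδ
    have h8 : (N : ℝ) ≤ k := by exact_mod_cast hk
    have h9 : 4 / (Cc * δ) < k + 1 := by linarith
    rw [div_lt_iff₀ hc] at h9
    linarith
  nlinarith

/-! ### The correction sequence, a fixed point of a monotone map -/

/-- The one-step map for the correction. -/
noncomputable def phi (x e : ℝ) : ℝ := e + (7 / 8) * max 0 (-(x + e))

lemma phi_mono (x : ℝ) {e e' : ℝ} (h : e ≤ e') : phi x e ≤ phi x e' := by
  unfold phi
  rcases le_total 0 (-(x + e')) with h1 | h1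
  · rw [max_eq_right h1, max_eq_right (by linarith : 0 ≤ -(x + e))]; linarith
  · rw [max_eq_left h1]
    rcases le_total 0 (-(x + e)) with h2 | h2
    · rw [max_eq_right h2]; linarith
    · rw [max_eq_left h2]; linarith

lemma phi_nonneg (x : ℝ) {e : ℝ} (h : 0 ≤ e) : 0 ≤ phi x e := by
  unfold phi
  have := le_max_left 0 (-(x + e))
  linarith

lemma phi_le_one {x e : ℝ} (hx : -1 ≤ x) (h : e ≤ 1) : phi x e ≤ 1 := by
  unfold phi
  rcases le_total 0 (-(x + e)) with h2 | h2
  · rw [max_eq_right h2]; linarith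
  · rw [max_eq_left h2]; linarith

lemma exists_correction : ∃ e : ℕ → ℝ, (∀ k, 0 ≤ e k ∧ e k ≤ 1 / 4) ∧
    ∀ k, e k = (1 / 4) * phi (x0 (k + 1)) (e (k + 1)) := by
  have : Fact ((0 : ℝ) ≤ 1) := ⟨zero_le_one⟩
  let T : (ℕ → Set.Icc (0 : ℝ) 1) →o (ℕ → Set.Icc (0 : ℝ) 1) :=
    { toFun := fun f k => ⟨(1 / 4) * phi (x0 (k + 1)) (f (k + 1)), by
        constructor
        · have := phi_nonneg (x0 (k + 1)) (f (k + 1)).2.1
          linarith
        · have := phi_le_one (neg_one_le_x0 (k + 1)) (f (k + 1)).2.2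
          linarith⟩
      monotone' := by
        intro f g hfg k
        have h1 : (f (k + 1) : ℝ) ≤ g (k + 1) := hfg (k + 1)
        have h2 := phi_mono (x0 (k + 1)) h1
        show (1 / 4 : ℝ) * phi (x0 (k + 1)) (f (k + 1)) ≤ (1 / 4) * phi (x0 (k + 1)) (g (k + 1))
        linarith }
  have hfix : T (OrderHom.lfp T) = OrderHom.lfp T := T.map_lfp
  set F := OrderHom.lfp T with hF
  have hk : ∀ k, (F k : ℝ) = (1 / 4) * phi (x0 (k + 1)) (F (k + 1)) := by
    intro k
    have := congrArg (fun f : ℕ → Set.Icc (0 : ℝ) 1 => ((f k : Set.Icc (0 : ℝ) 1) : ℝ)) hfix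
    exact this.symm
  refine ⟨fun k => (F k : ℝ), fun k => ⟨(F k).2.1, ?_⟩, hk⟩
  have h1 := phi_le_one (neg_one_le_x0 (k + 1)) (F (k + 1)).2.2
  show (F k : ℝ) ≤ 1 / 4
  rw [hk k]; linarith

/-- The correction sequence. -/
noncomputable def ec : ℕ → ℝ := exists_correction.choose

lemma ec_nonneg (k : ℕ) : 0 ≤ ec k := (exists_correction.choose_spec.1 k).1
lemma ec_le (k : ℕ) : ec k ≤ 1 / 4 := (exists_correction.choose_spec.1 k).2
lemma ec_eq (k : ℕ) : ec k = (1 / 4) * phi (x0 (k + 1)) (ec (k + 1)) :=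
  exists_correction.choose_spec.2 k

/-- The (scaled) optimal value sequence. -/
noncomputable def xs (k : ℕ) : ℝ := x0 k + ec k

/-- Truncation: negative values are divided by `8`. -/
noncomputable def tr (x : ℝ) : ℝ := if 0 ≤ x then x else x / 8

/-- The weights of the linear functional. -/
noncomputable def wt (k : ℕ) : ℝ := (1 / 4) ^ k * x0 k - (1 / 4) ^ (k + 1) * x0 (k + 1)

lemma xs_sub_tr (k : ℕ) : xs k - (1 / 4) * tr (xs (k + 1)) = x0 k - (1 / 4) * x0 (k + 1) := by
  have h1 : tr (xs (k + 1)) = x0 (k + 1) + phi (x0 (k + 1)) (ec (k + 1)) := by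
    unfold tr phi xs
    split_ifs with h
    · rw [max_eq_left (by linarith)]; ring
    · rw [max_eq_right (by linarith)]; ring
  have h2 := ec_eq k
  rw [h1]; unfold xs; linarith

lemma tr_scale (c x : ℝ) (hc : 0 < c) : tr (c * x) = c * tr x := by
  unfold tr
  by_cases h : 0 ≤ x
  · rw [if_pos h, if_pos (mul_nonneg hc.le h)]
  · rw [if_neg h, if_neg]
    · ring
    · intro h'; exact h (nonneg_of_mul_nonneg_right h' hc)

/-- The value sequence. -/
noncomputable def vs (k : ℕ) : ℝ := (1 / 4) ^ k * xs k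

lemma wt_eq (k : ℕ) : wt k = vs k - tr (vs (k + 1)) := by
  unfold vs wt
  rw [tr_scale _ _ (by positivity)]
  have := xs_sub_tr k
  have h2 : (1 / 4 : ℝ) ^ (k + 1) = (1 / 4) ^ k * (1 / 4) := pow_succ _ _
  rw [h2]
  linear_combination (-(1 / 4 : ℝ) ^ k) * this

lemma vs_zero_pos : 0 < vs 0 := by
  unfold vs xs
  rw [x0_zero]
  have := ec_nonneg 0
  simp; linarith

lemma succ_mul_quarter_pow_le (k : ℕ) : ((k : ℝ) + 1) * (1 / 4) ^ k ≤ 1 := by
  induction k with
  | zero => simp
  | succ k ih =>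
    have h : (0 : ℝ) < (1 / 4) ^ k := by positivity
    have hk : (0 : ℝ) ≤ k := Nat.cast_nonneg k
    push_cast
    rw [pow_succ]
    nlinarith

lemma abs_quarter_pow_mul_x0_le (k : ℕ) : |(1 / 4 : ℝ) ^ k * x0 k| ≤ 2 * Cc + 1 := by
  have h1 := neg_one_le_x0 k
  have h2 := x0_le k
  have h3 := succ_mul_quarter_pow_le k
  have h4 : (0 : ℝ) < (1 / 4) ^ k := by positivity
  have h5 : (1 / 4 : ℝ) ^ k ≤ 1 := pow_le_one₀ (by norm_num) (by norm_num)
  have hC := Cc_pos
  rw [abs_le]
  constructor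
  · nlinarith
  · have h6 : (1 / 4 : ℝ) ^ k * x0 k ≤ (1 / 4 : ℝ) ^ k * (2 * Cc * (k + 1)) :=
      mul_le_mul_of_nonneg_left h2 h4.le
    have h7 : (1 / 4 : ℝ) ^ k * (2 * Cc * (k + 1)) = 2 * Cc * (((k : ℝ) + 1) * (1 / 4) ^ k) := by ring
    nlinarith

lemma abs_wt_le (k : ℕ) : |wt k| ≤ 4 * Cc + 2 := by
  unfold wt
  have h1 := abs_quarter_pow_mul_x0_le k
  have h2 := abs_quarter_pow_mul_x0_le (k + 1)
  have h3 := abs_sub ((1 / 4 : ℝ) ^ k * x0 k) ((1 / 4 : ℝ) ^ (k + 1) * x0 (k + 1))
  linarith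

lemma abs_vs_le (k : ℕ) : |vs k| ≤ 2 * Cc + 2 := by
  unfold vs xs
  have h1 := abs_quarter_pow_mul_x0_le k
  have h2 : |(1 / 4 : ℝ) ^ k * ec k| ≤ 1 := by
    have h5 : (1 / 4 : ℝ) ^ k ≤ 1 := pow_le_one₀ (by norm_num) (by norm_num)
    have h4 : (0 : ℝ) < (1 / 4) ^ k := by positivity
    have h6 := ec_nonneg k
    have h7 := ec_le k
    rw [abs_of_nonneg (mul_nonneg h4.le h6)]
    nlinarith
  rw [mul_add]
  have h3 := abs_add_le ((1 / 4 : ℝ) ^ k * x0 k) ((1 / 4 : ℝ) ^ k * ec k)
  linarith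

/-! ### The linear programming bound -/

/-- The slack at step `k`. -/
noncomputable def slack (m : ℕ → ℝ) (k : ℕ) : ℝ := tr (vs (k + 1)) * m k - vs (k + 1) * m (k + 1)

lemma partial_sum_eq (m : ℕ → ℝ) (n : ℕ) :
    ∑ k ∈ Finset.range n, wt k * m k
      = vs 0 * m 0 - vs n * m n - ∑ k ∈ Finset.range n, slack m k := by
  induction n with
  | zero => simp
  | succ n ih =>
    rw [Finset.sum_range_succ, Finset.sum_range_succ, ih, wt_eq]
    unfold slack; ring

/-- Feasible sequences: nonincreasing, dropping at most by the factor `8` at each step, summable. -/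
structure Feas (m : ℕ → ℝ) : Prop where
  zero_le : m 0 ≤ 1
  anti : ∀ k, m (k + 1) ≤ m k
  drop : ∀ k, m k ≤ 8 * m (k + 1)
  summ : Summable m

lemma Feas.slack_nonneg {m : ℕ → ℝ} (h : Feas m) (k : ℕ) : 0 ≤ slack m k := by
  unfold slack tr
  have h1 := h.anti k
  have h2 := h.drop k
  split_ifs with hv
  · have := mul_nonneg hv (sub_nonneg.mpr h1)
    linarith
  · push Not at hv
    have h3 : 0 ≤ -vs (k + 1) * (8 * m (k + 1) - m k) :=
      mul_nonneg (by linarith) (by linarith)
    linarith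

lemma Feas.value {m : ℕ → ℝ} (h : Feas m) (hs : Summable (fun k => wt k * m k)) (k : ℕ) :
    slack m k ≤ vs 0 * m 0 - ∑' k, wt k * m k := by
  have hlim1 : Filter.Tendsto (fun n => ∑ k ∈ Finset.range n, wt k * m k) Filter.atTop
      (nhds (∑' k, wt k * m k)) := hs.hasSum.tendsto_sum_nat
  have hm0 : Filter.Tendsto m Filter.atTop (nhds 0) := h.summ.tendsto_atTop_zero
  have hvm : Filter.Tendsto (fun n => vs n * m n) Filter.atTop (nhds 0) := by
    refine squeeze_zero_norm (a := fun n => (2 * Cc + 2) * |m n|) ?_ ?_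
    · intro n
      rw [Real.norm_eq_abs, abs_mul]
      exact mul_le_mul_of_nonneg_right (abs_vs_le n) (abs_nonneg _)
    · have := (hm0.abs).const_mul (2 * Cc + 2)
      simpa using this
  have hlim2 : Filter.Tendsto (fun n => ∑ k ∈ Finset.range n, slack m k) Filter.atTop
      (nhds (vs 0 * m 0 - 0 - ∑' k, wt k * m k)) := by
    have h1 : (fun n => ∑ k ∈ Finset.range n, slack m k)
        = fun n => vs 0 * m 0 - vs n * m n - ∑ k ∈ Finset.range n, wt k * m k := by
      funext n
      rw [partial_sum_eq]; ring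
    rw [h1]
    exact (tendsto_const_nhds.sub hvm).sub hlim1
  rw [sub_zero] at hlim2
  apply ge_of_tendsto hlim2
  filter_upwards [Filter.eventually_ge_atTop (k + 1)] with n hn
  exact Finset.single_le_sum (fun i _ => h.slack_nonneg i) (Finset.mem_range.mpr (by omega))

/-! ### The optimal sequence -/

/-- The optimal sequence. -/
noncomputable def mst : ℕ → ℝ
  | 0 => 1
  | (k + 1) => if xs (k + 1) < 0 then mst k / 8 else mst k

lemma mst_pos (k : ℕ) : 0 < mst k := by
  induction k with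
  | zero => simp [mst]
  | succ k ih => unfold mst; split_ifs <;> linarith

lemma mst_succ_le (k : ℕ) : mst (k + 1) ≤ mst k := by
  have := mst_pos k
  rw [mst]; split_ifs <;> linarith

lemma mst_le_mul_succ (k : ℕ) : mst k ≤ 8 * mst (k + 1) := by
  have := mst_pos k
  rw [mst]; split_ifs <;> linarith

lemma mst_antitone : Antitone mst := antitone_nat_of_succ_le mst_succ_le

lemma mst_le_one (k : ℕ) : mst k ≤ 1 := by
  have := mst_antitone (Nat.zero_le k)
  simpa [mst] using this

lemma slack_mst (k : ℕ) : slack mst k = 0 := by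
  unfold slack tr
  have h4 : (0 : ℝ) < (1 / 4) ^ (k + 1) := by positivity
  rw [mst]
  by_cases h : xs (k + 1) < 0
  · have h1 : ¬ (0 ≤ vs (k + 1)) := by
      unfold vs; push Not; exact mul_neg_of_pos_of_neg h4 h
    rw [if_neg h1, if_pos h]; ring
  · have h1 : 0 ≤ vs (k + 1) := by
      unfold vs; push Not at h; exact mul_nonneg h4.le h
    rw [if_pos h1, if_neg h]; ring

lemma xs_fib_neg : ∃ n0 : ℕ, 3 ≤ n0 ∧ ∀ n, n0 ≤ n → xs (Nat.fib n - 1) < 0 := by
  obtain ⟨n0, h3, h⟩ := exists_fib_bound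
  refine ⟨n0, h3, fun n hn => ?_⟩
  have h1 := h n hn
  have h2 := ec_le (Nat.fib n - 1)
  unfold xs; linarith

lemma fib_le_two_pow (n : ℕ) : Nat.fib n ≤ 2 ^ n := by
  induction n using Nat.strong_induction_on with
  | _ n ih =>
    rcases n with _ | _ | n
    · simp
    · simp
    · rw [Nat.fib_add_two]
      have h1 := ih n (by omega)
      have h2 := ih (n + 1) (by omega)
      have h3 : 2 ^ (n + 2) = 2 * 2 ^ (n + 1) := by ring
      have h4 : 2 ^ (n + 1) = 2 * 2 ^ n := by ring
      omega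

lemma mst_bound : ∃ B : ℝ, 0 < B ∧ ∀ k : ℕ, mst k * ((k : ℝ) + 1) ^ 3 ≤ B := by
  obtain ⟨n0, h3, hneg⟩ := xs_fib_neg
  have hfib : ∀ i : ℕ, mst (Nat.fib (n0 + i) - 1) ≤ (1 / 8) ^ (i + 1) := by
    intro i
    induction i with
    | zero =>
      have h2 : 2 ≤ Nat.fib (n0 + 0) := by
        have : Nat.fib 3 ≤ Nat.fib (n0 + 0) := Nat.fib_mono (by omega)
        simpa [Nat.fib_add_two] using this
      obtain ⟨j, hj⟩ : ∃ j, Nat.fib (n0 + 0) - 1 = j + 1 := ⟨Nat.fib (n0 + 0) - 2, by omega⟩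
      have hn := hneg (n0 + 0) (by omega)
      rw [hj] at hn ⊢
      rw [mst, if_pos hn]
      have := mst_le_one j
      simp; linarith
    | succ i ih =>
      have hlt : Nat.fib (n0 + i) < Nat.fib (n0 + (i + 1)) := by
        apply Nat.fib_lt_fib_succ
        omega
      have h2 : 0 < Nat.fib (n0 + i) := Nat.fib_pos.mpr (by omega)
      obtain ⟨j, hj⟩ : ∃ j, Nat.fib (n0 + (i + 1)) - 1 = j + 1 :=
        ⟨Nat.fib (n0 + (i + 1)) - 2, by omega⟩
      have hn := hneg (n0 + (i + 1)) (by omega)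
      rw [hj] at hn ⊢
      rw [mst, if_pos hn]
      have hle : mst j ≤ mst (Nat.fib (n0 + i) - 1) := mst_antitone (by omega)
      rw [pow_succ]
      linarith
  refine ⟨8 ^ n0, by positivity, ?_⟩
  intro k
  have hk1 : (0 : ℝ) < (k : ℝ) + 1 := by positivity
  set L := Nat.log 2 (k + 1) with hL
  have hL1 : 2 ^ L ≤ k + 1 := Nat.pow_log_le_self 2 (by omega)
  have hL2 : k + 1 < 2 ^ (L + 1) := Nat.lt_pow_succ_log_self (by norm_num) _
  have hL2' : ((k : ℝ) + 1) ^ 3 ≤ 8 ^ (L + 1) := by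
    have h1 : (k : ℝ) + 1 ≤ 2 ^ (L + 1) := by exact_mod_cast hL2.le
    calc ((k : ℝ) + 1) ^ 3 ≤ ((2 : ℝ) ^ (L + 1)) ^ 3 := pow_le_pow_left₀ hk1.le h1 3
      _ = 8 ^ (L + 1) := by rw [← pow_mul, mul_comm, pow_mul]; norm_num
  by_cases hc : n0 ≤ L
  · obtain ⟨i, hi⟩ := Nat.exists_eq_add_of_le hc
    have h1 : Nat.fib (n0 + i) ≤ k + 1 := by
      rw [← hi]; exact (fib_le_two_pow L).trans hL1
    have h2 : mst k ≤ (1 / 8) ^ (i + 1) :=
      (mst_antitone (by omega : Nat.fib (n0 + i) - 1 ≤ k)).trans (hfib i)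
    calc mst k * ((k : ℝ) + 1) ^ 3 ≤ (1 / 8) ^ (i + 1) * 8 ^ (L + 1) :=
          mul_le_mul h2 hL2' (by positivity) (by positivity)
      _ = 8 ^ n0 := by
          rw [hi, show n0 + i + 1 = (i + 1) + n0 by ring, pow_add (8 : ℝ) (i + 1) n0, ← mul_assoc,
            ← mul_pow]
          norm_num
  · push Not at hc
    calc mst k * ((k : ℝ) + 1) ^ 3 ≤ 1 * 8 ^ (L + 1) :=
          mul_le_mul (mst_le_one k) hL2' (by positivity) (by norm_num)
      _ ≤ 8 ^ n0 := by
          rw [one_mul]; exact pow_le_pow_right₀ (by norm_num) (by omega)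

lemma summable_succ_mul_mst : Summable (fun k : ℕ => ((k : ℝ) + 1) * mst k) := by
  obtain ⟨B, hB, h⟩ := mst_bound
  have h2 : Summable (fun k : ℕ => B * (1 / ((k : ℝ) + 1) ^ 2)) := by
    apply Summable.mul_left
    have := (summable_nat_add_iff 1).mpr (Real.summable_one_div_nat_pow.mpr (by norm_num : 1 < 2))
    simpa using this
  refine Summable.of_nonneg_of_le (fun k => mul_nonneg (by positivity) (mst_pos k).le) ?_ h2
  intro k
  have hk1 : (0 : ℝ) < (k : ℝ) + 1 := by positivity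
  have h3 := h k
  rw [mul_one_div, le_div_iff₀ (by positivity)]
  nlinarith

lemma summable_mst : Summable mst := by
  refine Summable.of_nonneg_of_le (fun k => (mst_pos k).le) ?_ summable_succ_mul_mst
  intro k
  have := mst_pos k
  have hk : (0 : ℝ) ≤ k := Nat.cast_nonneg k
  nlinarith

lemma feas_mst : Feas mst :=
  ⟨mst_le_one 0, mst_succ_le, mst_le_mul_succ, summable_mst⟩

lemma summable_wt_mul {m : ℕ → ℝ} (hm : Summable (fun k => |m k|)) :
    Summable (fun k => wt k * m k) := by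
  apply Summable.of_norm_bounded (g := fun k => (4 * Cc + 2) * |m k|) (hm.mul_left _)
  intro k
  rw [Real.norm_eq_abs, abs_mul]
  exact mul_le_mul_of_nonneg_right (abs_wt_le k) (abs_nonneg _)

lemma value_mst : ∑' k, wt k * mst k = vs 0 := by
  have hs := summable_wt_mul (m := mst) summable_mst.abs
  have hlim1 : Filter.Tendsto (fun n => ∑ k ∈ Finset.range n, wt k * mst k) Filter.atTop
      (nhds (∑' k, wt k * mst k)) := hs.hasSum.tendsto_sum_nat
  have hvm : Filter.Tendsto (fun n => vs n * mst n) Filter.atTop (nhds 0) := by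
    refine squeeze_zero_norm (a := fun n => (2 * Cc + 2) * |mst n|) ?_ ?_
    · intro n
      rw [Real.norm_eq_abs, abs_mul]
      exact mul_le_mul_of_nonneg_right (abs_vs_le n) (abs_nonneg _)
    · have := (summable_mst.tendsto_atTop_zero.abs).const_mul (2 * Cc + 2)
      simpa using this
  have h1 : (fun n => ∑ k ∈ Finset.range n, wt k * mst k) = fun n => vs 0 - vs n * mst n := by
    funext n
    rw [partial_sum_eq]
    simp [slack_mst, mst]
  rw [h1] at hlim1
  have h2 : Filter.Tendsto (fun n => vs 0 - vs n * mst n) Filter.atTop (nhds (vs 0 - 0)) :=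
    tendsto_const_nhds.sub hvm
  rw [sub_zero] at h2
  exact tendsto_nhds_unique hlim1 h2

/-- A feasible sequence with the optimal value starts at `1` and is constant across every index
where the value sequence is positive. -/
lemma Feas.rigid {m : ℕ → ℝ} (h : Feas m) (habs : Summable (fun k => |m k|))
    (hval : ∑' k, wt k * m k = vs 0) :
    m 0 = 1 ∧ ∀ k, 0 < xs (k + 1) → m (k + 1) = m k := by
  have hs := summable_wt_mul habs
  have hle : ∀ k, slack m k ≤ vs 0 * m 0 - vs 0 := by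
    intro k
    have := h.value hs k
    rwa [hval] at this
  have hv := vs_zero_pos
  have h0 : m 0 = 1 := by
    have h1 := (h.slack_nonneg 0).trans (hle 0)
    have h2 : 1 ≤ m 0 := by
      by_contra hc
      push Not at hc
      nlinarith
    exact le_antisymm h.zero_le h2
  refine ⟨h0, fun k hk => ?_⟩
  have h1 : slack m k = 0 := by
    apply le_antisymm _ (h.slack_nonneg k)
    have := hle k
    rw [h0] at this
    linarith
  have h4 : (0 : ℝ) < (1 / 4) ^ (k + 1) := by positivity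
  have hvk : 0 < vs (k + 1) := mul_pos h4 hk
  unfold slack tr at h1
  rw [if_pos hvk.le, ← mul_sub] at h1
  have := (mul_eq_zero.mp h1).resolve_left hvk.ne'
  linarith

/-- Rigid sequences do not decay exponentially. -/
lemma no_exp_decay {m : ℕ → ℝ} (h : Feas m) (h0 : m 0 = 1)
    (hrig : ∀ k, 0 < xs (k + 1) → m (k + 1) = m k) {M ρ : ℝ} (hρ0 : 0 ≤ ρ) (hρ : ρ < 1)
    (hM : 0 < M) (hb : ∀ k, 0 < xs (k + 1) → m k ≤ M * ρ ^ k) : False := by
  have hmpos : ∀ k, 0 < m k := by
    intro k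
    induction k with
    | zero => rw [h0]; exact one_pos
    | succ k ih => have := h.drop k; linarith
  -- choose a block length
  obtain ⟨G0, hG0⟩ := exists_pow_lt_of_lt_one (show (0 : ℝ) < 1 / 8 by norm_num) hρ
  set G := G0 + 2 with hG
  have hρG : ρ ^ G < 1 / 8 := by
    have h1 : ρ ^ G ≤ ρ ^ G0 := pow_le_pow_of_le_one hρ0 hρ.le (by omega)
    linarith
  obtain ⟨K, hK⟩ := gap G
  have hpos_of : ∀ k i : ℕ, K ≤ k → 0 < i → i ≤ G → xs k ≤ 0 → 0 < xs (k + i) := by
    intro k i hk hi hiG hx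
    have h1 : x0 k ≤ 0 := by have := ec_nonneg k; unfold xs at hx; linarith
    have h2 := hK k i hk hi hiG h1
    have h3 := ec_nonneg (k + i)
    unfold xs; linarith
  -- one drop at most over a block
  have hstep : ∀ k, K ≤ k → m k ≤ 8 * m (k + G) := by
    intro k hk
    have hconst : ∀ a n : ℕ, (∀ i, i < n → 0 < xs (a + i + 1)) → m (a + n) = m a := by
      intro a n
      induction n with
      | zero => intro _; rfl
      | succ n ih =>
        intro hi
        have h1 := hrig (a + n) (hi n (Nat.lt_succ_self n))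
        rw [show a + (n + 1) = a + n + 1 by ring, h1]
        exact ih (fun i hin => hi i (by omega))
    by_cases hex : ∃ i, i < G ∧ xs (k + i + 1) ≤ 0
    · obtain ⟨i, hi, hxi⟩ := hex
      classical
      have hex' : ∃ i, i < G ∧ xs (k + i + 1) ≤ 0 := ⟨i, hi, hxi⟩
      set i0 := Nat.find hex' with hi0
      obtain ⟨hi0G, hxi0⟩ := Nat.find_spec hex'
      have hmin : ∀ j, j < i0 → 0 < xs (k + j + 1) := by
        intro j hj
        have := Nat.find_min hex' hj
        by_contra hc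
        push Not at hc
        exact this ⟨by omega, hc⟩
      have h1 : m (k + i0) = m k := hconst k i0 hmin
      have h2 : m (k + i0) ≤ 8 * m (k + i0 + 1) := h.drop _
      have h3 : m (k + i0 + 1 + (G - i0 - 1)) = m (k + i0 + 1) := by
        apply hconst
        intro j hj
        have := hpos_of (k + i0 + 1) (j + 1) (by omega) (by omega) (by omega) hxi0
        rwa [show k + i0 + 1 + (j + 1) = k + i0 + 1 + j + 1 by ring] at this
      have h4 : k + i0 + 1 + (G - i0 - 1) = k + G := by omega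
      rw [h4] at h3
      rw [h3]; linarith
    · push Not at hex
      have h1 : m (k + G) = m k := hconst k G hex
      rw [h1]; have := hmpos k; linarith
  have hblock : ∀ j : ℕ, m K ≤ 8 ^ j * m (K + j * G) := by
    intro j
    induction j with
    | zero => simp
    | succ j ih =>
      have h1 := hstep (K + j * G) (by omega)
      rw [show K + (j + 1) * G = K + j * G + G by ring]
      have h8 : (0 : ℝ) < 8 ^ j := by positivity
      calc m K ≤ 8 ^ j * m (K + j * G) := ih
        _ ≤ 8 ^ j * (8 * m (K + j * G + G)) := mul_le_mul_of_nonneg_left h1 h8.le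
        _ = 8 ^ (j + 1) * m (K + j * G + G) := by ring
  have hub : ∀ k, K ≤ k → m k ≤ 8 * M * ρ ^ k := by
    intro k hk
    by_cases hx : 0 < xs (k + 1)
    · have h1 := hb k hx
      have h2 : 0 ≤ M * ρ ^ k := by positivity
      linarith
    · push Not at hx
      have h1 := hpos_of (k + 1) 1 (by omega) (by omega) (by omega) hx
      have h2 := hb (k + 1) h1
      have h3 := h.drop k
      have h4 : ρ ^ (k + 1) ≤ ρ ^ k := pow_le_pow_of_le_one hρ0 hρ.le (by omega)
      have h5 : M * ρ ^ (k + 1) ≤ M * ρ ^ k := mul_le_mul_of_nonneg_left h4 hM.le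
      linarith
  have hcomb : ∀ j : ℕ, m K ≤ (8 * M) * (8 * ρ ^ G) ^ j := by
    intro j
    have h1 := hblock j
    have h2 := hub (K + j * G) (by omega)
    have h8 : (0 : ℝ) < 8 ^ j := by positivity
    calc m K ≤ 8 ^ j * m (K + j * G) := h1
      _ ≤ 8 ^ j * (8 * M * ρ ^ (K + j * G)) := mul_le_mul_of_nonneg_left h2 h8.le
      _ = (ρ ^ K) * ((8 * M) * (8 * ρ ^ G) ^ j) := by
          rw [mul_pow, ← pow_mul, pow_add, mul_comm j G]; ring
      _ ≤ 1 * ((8 * M) * (8 * ρ ^ G) ^ j) := by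
          apply mul_le_mul_of_nonneg_right (pow_le_one₀ hρ0 hρ.le) (by positivity)
      _ = _ := one_mul _
  have hlim : Filter.Tendsto (fun j : ℕ => (8 * M) * (8 * ρ ^ G) ^ j) Filter.atTop (nhds 0) := by
    have := (tendsto_pow_atTop_nhds_zero_of_lt_one (r := 8 * ρ ^ G) (by positivity)
      (by linarith)).const_mul (8 * M)
    simpa using this
  have hle : m K ≤ 0 := ge_of_tendsto' hlim hcomb
  linarith [hmpos K]

/-! ### Pairing of a polynomial multiple of a power series with a weight sequence -/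

lemma coeff_poly_mul (A : ℝ[X]) (hA : ∀ i, 8 ≤ i → A.coeff i = 0) (f : ℕ → ℝ) (n : ℕ) :
    PowerSeries.coeff n ((A : PowerSeries ℝ) * PowerSeries.mk f)
      = ∑ i ∈ Finset.range 8, A.coeff i * (if i ≤ n then f (n - i) else 0) := by
  rw [PowerSeries.coeff_mul, Finset.Nat.sum_antidiagonal_eq_sum_range_succ_mk]
  have h1 : ∑ k ∈ Finset.range n.succ,
      PowerSeries.coeff k (A : PowerSeries ℝ) * PowerSeries.coeff (n - k) (PowerSeries.mk f)
      = ∑ i ∈ Finset.range (n + 9), A.coeff i * (if i ≤ n then f (n - i) else 0) := by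
    rw [← Finset.sum_subset (Finset.range_mono (show n.succ ≤ n + 9 by omega))]
    · apply Finset.sum_congr rfl
      intro i hi
      rw [Finset.mem_range] at hi
      rw [if_pos (by omega), Polynomial.coeff_coe, PowerSeries.coeff_mk]
    · intro i _ hi
      rw [Finset.mem_range] at hi
      rw [if_neg (by omega), mul_zero]
  rw [h1, ← Finset.sum_subset (Finset.range_mono (show 8 ≤ n + 9 by omega))]
  intro i _ hi
  rw [Finset.mem_range] at hi
  rw [hA i (by omega), zero_mul]

lemma pairing (A : ℝ[X]) (hA : ∀ i, 8 ≤ i → A.coeff i = 0) (w f : ℕ → ℝ)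
    (hs : ∀ i, Summable (fun j => w (j + i) * f j)) :
    HasSum (fun n => w n * PowerSeries.coeff n ((A : PowerSeries ℝ) * PowerSeries.mk f))
      (∑' j, f j * ∑ i ∈ Finset.range 8, A.coeff i * w (j + i)) := by
  have h1 : ∀ i, HasSum (fun n => w n * (if i ≤ n then f (n - i) else 0))
      (∑' j, w (j + i) * f j) := by
    intro i
    have hinj : Function.Injective (fun j : ℕ => j + i) := fun a b h => by simpa using h
    rw [← hinj.hasSum_iff]
    · have : ((fun n => w n * (if i ≤ n then f (n - i) else 0)) ∘ fun j : ℕ => j + i)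
          = fun j => w (j + i) * f j := by
        funext j
        simp
      rw [this]
      exact (hs i).hasSum
    · intro n hn
      have : ¬ i ≤ n := by
        intro h
        exact hn ⟨n - i, by simp; omega⟩
      rw [if_neg this, mul_zero]
  have h2 : HasSum (fun n => ∑ i ∈ Finset.range 8, A.coeff i * (w n * (if i ≤ n then f (n - i) else 0)))
      (∑ i ∈ Finset.range 8, A.coeff i * ∑' j, w (j + i) * f j) :=
    hasSum_sum (fun i _ => (h1 i).mul_left (A.coeff i))
  have h3 : (fun n => w n * PowerSeries.coeff n ((A : PowerSeries ℝ) * PowerSeries.mk f))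
      = fun n => ∑ i ∈ Finset.range 8, A.coeff i * (w n * (if i ≤ n then f (n - i) else 0)) := by
    funext n
    rw [coeff_poly_mul A hA, Finset.mul_sum]
    exact Finset.sum_congr rfl (fun i _ => by ring)
  have h4 : ∑' j, f j * ∑ i ∈ Finset.range 8, A.coeff i * w (j + i)
      = ∑ i ∈ Finset.range 8, A.coeff i * ∑' j, w (j + i) * f j := by
    have h5 : (fun j => f j * ∑ i ∈ Finset.range 8, A.coeff i * w (j + i))
        = fun j => ∑ i ∈ Finset.range 8, A.coeff i * (w (j + i) * f j) := by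
      funext j
      rw [Finset.mul_sum]
      exact Finset.sum_congr rfl (fun i _ => by ring)
    rw [h5, Summable.tsum_finsetSum (fun i _ => (hs i).mul_left _)]
    exact Finset.sum_congr rfl (fun i _ => tsum_mul_left)
  rw [h3, h4]
  exact h2

/-- Pairing with the constant weight. -/
lemma hasSum_poly_mul (A : ℝ[X]) (hA : ∀ i, 8 ≤ i → A.coeff i = 0) {f : ℕ → ℝ}
    (hf : Summable f) :
    HasSum (fun n => PowerSeries.coeff n ((A : PowerSeries ℝ) * PowerSeries.mk f))
      ((∑ i ∈ Finset.range 8, A.coeff i) * ∑' j, f j) := by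
  have h := pairing A hA (fun _ => 1) f (by intro i; simpa using hf)
  simp only [one_mul, mul_one] at h
  rw [tsum_mul_right, mul_comm (∑' (x : ℕ), f x)] at h
  exact h

/-! ### The polynomial `R` and its inverse power series -/

/-- Cosine of the angle. -/
noncomputable def cc : ℝ := cos theta

lemma abs_cc_le : |cc| ≤ 1 := abs_cos_le_one theta

/-- The quadratic factor. -/
noncomputable def Tp : ℝ[X] := 1 - C (cc / 2) * X + C (1 / 16) * X ^ 2

/-- The linear factor. -/
noncomputable def Lp : ℝ[X] := 1 - C (1 / 4) * X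

/-- All zeros of this factor (in reversed form) are inside the open unit disc. -/
noncomputable def Rp' : ℝ[X] := Lp ^ 2 * Tp ^ 2

/-- The full polynomial, of degree `7`. -/
noncomputable def Rp : ℝ[X] := (1 - X) * Rp'

lemma natDegree_Tp : Tp.natDegree ≤ 2 := by unfold Tp; compute_degree
lemma natDegree_Lp : Lp.natDegree ≤ 1 := by unfold Lp; compute_degree

lemma natDegree_Rp' : Rp'.natDegree ≤ 6 := by
  unfold Rp'
  refine (Polynomial.natDegree_mul_le).trans ?_
  have h1 := (Polynomial.natDegree_pow_le (p := Lp) (n := 2))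
  have h2 := (Polynomial.natDegree_pow_le (p := Tp) (n := 2))
  have h3 := natDegree_Tp
  have h4 := natDegree_Lp
  omega

lemma natDegree_Rp : Rp.natDegree ≤ 7 := by
  unfold Rp
  refine (Polynomial.natDegree_mul_le).trans ?_
  have h1 : (1 - X : ℝ[X]).natDegree ≤ 1 := by compute_degree
  have h2 := natDegree_Rp'
  omega

lemma coeff_Rp_eq_zero {i : ℕ} (hi : 8 ≤ i) : Rp.coeff i = 0 :=
  Polynomial.coeff_eq_zero_of_natDegree_lt (lt_of_le_of_lt natDegree_Rp (by omega))

lemma sum_coeff_eq_eval_one (A : ℝ[X]) (hA : A.natDegree < 8) :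
    ∑ i ∈ Finset.range 8, A.coeff i = A.eval 1 := by
  rw [Polynomial.eval_eq_sum_range' hA]
  simp

/-- The inverse of the quadratic factor. -/
noncomputable def useq : ℕ → ℝ
  | 0 => 1
  | 1 => cc / 2
  | (n + 2) => cc / 2 * useq (n + 1) - 1 / 16 * useq n

lemma abs_useq_le (n : ℕ) : |useq n| ≤ (3 / 4) ^ n := by
  induction n using Nat.strong_induction_on with
  | _ n ih =>
    rcases n with _ | _ | n
    · simp [useq]
    · rw [useq, abs_div]
      have := abs_cc_le
      norm_num; linarith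
    · rw [useq]
      have h1 := ih (n + 1) (by omega)
      have h2 := ih n (by omega)
      have h3 := abs_sub (cc / 2 * useq (n + 1)) (1 / 16 * useq n)
      have h4 : |cc / 2 * useq (n + 1)| ≤ 1 / 2 * (3 / 4) ^ (n + 1) := by
        rw [abs_mul, abs_div]
        have := abs_cc_le
        have h5 : |cc| / |(2 : ℝ)| ≤ 1 / 2 := by norm_num; linarith
        exact mul_le_mul h5 h1 (abs_nonneg _) (by norm_num)
      have h6 : |1 / 16 * useq n| ≤ 1 / 16 * (3 / 4) ^ n := by
        rw [abs_mul, abs_of_pos (by norm_num : (0 : ℝ) < 1 / 16)]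
        linarith
      have h7 : (0 : ℝ) < (3 / 4) ^ n := by positivity
      rw [pow_succ] at h4
      rw [pow_succ, pow_succ]
      linarith

lemma Tp_mul_useq : (Tp : PowerSeries ℝ) * PowerSeries.mk useq = 1 := by
  have h1 : (Tp : PowerSeries ℝ) * PowerSeries.mk useq
      = PowerSeries.mk useq - PowerSeries.C (cc / 2) * (PowerSeries.X * PowerSeries.mk useq)
        + PowerSeries.C (1 / 16) * (PowerSeries.X * (PowerSeries.X * PowerSeries.mk useq)) := by
    unfold Tp
    push_cast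
    ring
  rw [h1]
  ext n
  rcases n with _ | _ | n
  · simp [useq]
  · simp [PowerSeries.coeff_succ_X_mul, useq, PowerSeries.coeff_one]
  · simp [PowerSeries.coeff_succ_X_mul, useq, PowerSeries.coeff_one]

lemma one_sub_mul_geom (r : ℝ) :
    (1 - PowerSeries.C r * PowerSeries.X) * PowerSeries.mk (fun n => r ^ n) = 1 := by
  have h1 : (1 - PowerSeries.C r * PowerSeries.X) * PowerSeries.mk (fun n => r ^ n)
      = PowerSeries.mk (fun n => r ^ n)
        - PowerSeries.C r * (PowerSeries.X * PowerSeries.mk (fun n => r ^ n)) := by ring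
  rw [h1]
  ext n
  rcases n with _ | n
  · simp
  · simp [PowerSeries.coeff_succ_X_mul, PowerSeries.coeff_one, pow_succ, mul_comm]

lemma Lp_mul_geom : (Lp : PowerSeries ℝ) * PowerSeries.mk (fun n => (1 / 4 : ℝ) ^ n) = 1 := by
  unfold Lp
  push_cast
  exact one_sub_mul_geom (1 / 4)

/-- The inverse of `Rp'`. -/
noncomputable def kap' : PowerSeries ℝ :=
  (PowerSeries.mk (fun n => (1 / 4 : ℝ) ^ n)) ^ 2 * (PowerSeries.mk useq) ^ 2

/-- The inverse of `Rp`. -/
noncomputable def kap : PowerSeries ℝ := PowerSeries.mk (fun _ => (1 : ℝ)) * kap'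

lemma Rp'_mul_kap' : (Rp' : PowerSeries ℝ) * kap' = 1 := by
  unfold Rp' kap'
  push_cast
  calc _ = ((Lp : PowerSeries ℝ) * PowerSeries.mk (fun n => (1 / 4 : ℝ) ^ n)) ^ 2
        * ((Tp : PowerSeries ℝ) * PowerSeries.mk useq) ^ 2 := by ring
    _ = 1 := by rw [Lp_mul_geom, Tp_mul_useq]; ring

lemma Rp_mul_kap : (Rp : PowerSeries ℝ) * kap = 1 := by
  have h1 : ((1 - X : ℝ[X]) : PowerSeries ℝ) * PowerSeries.mk (fun _ => (1 : ℝ)) = 1 := by
    have := one_sub_mul_geom 1
    simp only [one_pow, map_one, one_mul] at this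
    push_cast
    exact this
  unfold Rp kap
  push_cast at h1 ⊢
  calc _ = ((1 - PowerSeries.X : PowerSeries ℝ) * PowerSeries.mk (fun _ => (1 : ℝ)))
        * ((Rp' : PowerSeries ℝ) * kap') := by ring
    _ = 1 := by rw [h1, Rp'_mul_kap']; ring

/-- Absolute summability of the coefficients. -/
def SA (f : PowerSeries ℝ) : Prop := Summable (fun n => ‖PowerSeries.coeff n f‖)

lemma SA.mul {f g : PowerSeries ℝ} (hf : SA f) (hg : SA g) : SA (f * g) := by
  have := summable_norm_sum_mul_antidiagonal_of_summable_norm hf hg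
  unfold SA
  simpa only [PowerSeries.coeff_mul] using this

lemma SA_geom : SA (PowerSeries.mk (fun n => (1 / 4 : ℝ) ^ n)) := by
  unfold SA
  simp only [PowerSeries.coeff_mk]
  exact (summable_geometric_of_lt_one (by norm_num) (by norm_num)).norm

lemma SA_useq : SA (PowerSeries.mk useq) := by
  unfold SA
  simp only [PowerSeries.coeff_mk]
  refine Summable.of_nonneg_of_le (fun n => norm_nonneg _) (fun n => ?_)
    (summable_geometric_of_lt_one (r := (3 / 4 : ℝ)) (by norm_num) (by norm_num))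
  rw [Real.norm_eq_abs]
  exact abs_useq_le n

lemma SA_kap' : SA kap' := by
  unfold kap'
  rw [pow_two, pow_two]
  exact (SA_geom.mul SA_geom).mul (SA_useq.mul SA_useq)

lemma kap_bound : ∃ B : ℝ, 0 ≤ B ∧ ∀ n, |PowerSeries.coeff n kap| ≤ B := by
  refine ⟨∑' n, ‖PowerSeries.coeff n kap'‖, tsum_nonneg (fun _ => norm_nonneg _), ?_⟩
  intro n
  unfold kap
  rw [mul_comm, PowerSeries.coeff_mul, Finset.Nat.sum_antidiagonal_eq_sum_range_succ_mk]
  simp only [PowerSeries.coeff_mk, mul_one]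
  calc |∑ k ∈ Finset.range n.succ, PowerSeries.coeff k kap'|
      ≤ ∑ k ∈ Finset.range n.succ, ‖PowerSeries.coeff k kap'‖ := Finset.abs_sum_le_sum_abs _ _
    _ ≤ _ := SA_kap'.sum_le_tsum _ (fun _ _ => norm_nonneg _)

/-! ### The weights are annihilated -/

/-- Generating function of `(1/4)^k cos (k θ)`. -/
noncomputable def Fs : PowerSeries ℝ := PowerSeries.mk (fun k : ℕ => (1 / 4 : ℝ) ^ k * cos (k * theta))

/-- Generating function of `(k+1) (1/4)^k cos ((k+1) θ)`. -/
noncomputable def Gs : PowerSeries ℝ :=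
  PowerSeries.mk (fun k : ℕ => (k + 1 : ℝ) * ((1 / 4 : ℝ) ^ k * cos ((k + 1 : ℝ) * theta)))

/-- Generating function of `(k+1) (1/4)^k`. -/
noncomputable def As : PowerSeries ℝ := PowerSeries.mk (fun k : ℕ => (k + 1 : ℝ) * (1 / 4 : ℝ) ^ k)

/-- Generating function of `(1/4)^k`. -/
noncomputable def Bs : PowerSeries ℝ := PowerSeries.mk (fun k : ℕ => (1 / 4 : ℝ) ^ k)

lemma Tp_mul_Fs : (Tp : PowerSeries ℝ) * Fs = ((1 - C (cc / 4) * X : ℝ[X]) : PowerSeries ℝ) := by
  have h1 : (Tp : PowerSeries ℝ) * Fs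
      = Fs - PowerSeries.C (cc / 2) * (PowerSeries.X * Fs)
        + PowerSeries.C (1 / 16) * (PowerSeries.X * (PowerSeries.X * Fs)) := by
    unfold Tp
    push_cast
    ring
  rw [h1]
  ext n
  push_cast
  rcases n with _ | _ | n
  · simp [Fs]
  · simp [PowerSeries.coeff_succ_X_mul, PowerSeries.coeff_one, Fs, PowerSeries.coeff_succ_mul_X]
    unfold cc; ring
  · simp only [Fs, map_add, map_sub, PowerSeries.coeff_C_mul, PowerSeries.coeff_succ_X_mul,
      PowerSeries.coeff_mk, PowerSeries.coeff_one, PowerSeries.coeff_succ_mul_X]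
    have h1 : ((n + 1 + 1 : ℕ) : ℝ) * theta = (((n + 1 : ℕ) : ℝ) * theta) + theta := by
      push_cast; ring
    have h2 : ((n : ℕ) : ℝ) * theta = (((n + 1 : ℕ) : ℝ) * theta) - theta := by push_cast; ring
    rw [h1, h2, cos_add, cos_sub]
    simp
    unfold cc
    ring

lemma derivative_Fs : PowerSeries.derivative ℝ Fs = PowerSeries.C (1 / 4) * Gs := by
  ext n
  rw [PowerSeries.coeff_derivative]
  simp only [Fs, Gs, PowerSeries.coeff_mk, PowerSeries.coeff_C_mul]
  push_cast
  rw [pow_succ]; ring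

lemma Tp_sq_mul_Gs : (Tp : PowerSeries ℝ) ^ 2 * Gs
    = ((C cc - C (1 / 2) * X + C (cc / 16) * X ^ 2 : ℝ[X]) : PowerSeries ℝ) := by
  have h1 := congrArg (PowerSeries.derivative ℝ) Tp_mul_Fs
  rw [Derivation.leibniz, PowerSeries.derivative_coe, PowerSeries.derivative_coe,
    derivative_Fs] at h1
  simp only [smul_eq_mul] at h1
  have h2 : ((C 4 : ℝ[X]) : PowerSeries ℝ) * ((C (1 / 4) : ℝ[X]) : PowerSeries ℝ) = 1 := by
    rw [← Polynomial.coe_mul]
    have : (C 4 : ℝ[X]) * C (1 / 4) = 1 := by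
      rw [← C_mul]; norm_num
    rw [this]; simp
  have h3 : (PowerSeries.C (1 / 4) : PowerSeries ℝ) = ((C (1 / 4) : ℝ[X]) : PowerSeries ℝ) := by simp
  rw [h3] at h1
  -- multiply by `4 * Tp`
  have h4 : (Tp : PowerSeries ℝ) ^ 2 * Gs
      = ((C 4 : ℝ[X]) : PowerSeries ℝ) * (Tp : PowerSeries ℝ)
          * ((derivative (1 - C (cc / 4) * X : ℝ[X]) : ℝ[X]) : PowerSeries ℝ)
        - ((C 4 : ℝ[X]) : PowerSeries ℝ) * ((1 - C (cc / 4) * X : ℝ[X]) : PowerSeries ℝ)
          * ((derivative Tp : ℝ[X]) : PowerSeries ℝ) := by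
    rw [← h1, ← Tp_mul_Fs]
    linear_combination (-(Tp : PowerSeries ℝ) ^ 2 * Gs) * h2
  have h5 : (C 4 : ℝ[X]) * Tp * derivative (1 - C (cc / 4) * X : ℝ[X])
      - C 4 * (1 - C (cc / 4) * X : ℝ[X]) * derivative Tp
      = (C cc - C (1 / 2) * X + C (cc / 16) * X ^ 2 : ℝ[X]) := by
    apply Polynomial.funext
    intro x
    unfold Tp
    simp
    ring
  rw [h4, ← h5]
  simp only [Polynomial.coe_sub, Polynomial.coe_mul]

lemma Lp_mul_Bs : (Lp : PowerSeries ℝ) * Bs = 1 := Lp_mul_geom

lemma Lp_sq_mul_As : (Lp : PowerSeries ℝ) ^ 2 * As = 1 := by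
  have hA : (Lp : PowerSeries ℝ) * As = Bs := by
    have h1 : (Lp : PowerSeries ℝ) * As = As - PowerSeries.C (1 / 4) * (PowerSeries.X * As) := by
      unfold Lp
      push_cast
      ring
    rw [h1]
    ext n
    rcases n with _ | n
    · simp [As, Bs]
    · simp only [As, Bs, map_sub, PowerSeries.coeff_C_mul, PowerSeries.coeff_succ_X_mul,
        PowerSeries.coeff_mk]
      push_cast
      rw [pow_succ]; ring
  rw [pow_two, mul_assoc, hA, Lp_mul_Bs]

/-- Generating function of the unshifted values. -/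
noncomputable def Vs : PowerSeries ℝ := PowerSeries.mk (fun k => (1 / 4 : ℝ) ^ k * x0 k)

lemma Vs_eq : Vs = PowerSeries.C Cc * As - PowerSeries.C Cc * Gs - Bs := by
  ext n
  simp only [Vs, As, Gs, Bs, map_sub, PowerSeries.coeff_C_mul, PowerSeries.coeff_mk]
  unfold x0
  ring

/-- The numerator of the generating function. -/
noncomputable def N0 : ℝ[X] :=
  C Cc * Tp ^ 2 - C Cc * (C cc - C (1 / 2) * X + C (cc / 16) * X ^ 2) * Lp ^ 2 - Lp * Tp ^ 2

lemma Rp'_mul_Vs : (Rp' : PowerSeries ℝ) * Vs = (N0 : PowerSeries ℝ) := by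
  have h1 := Tp_sq_mul_Gs
  have h2 := Lp_sq_mul_As
  have h3 := Lp_mul_Bs
  have e1 : (Rp' : PowerSeries ℝ) = (Lp : PowerSeries ℝ) ^ 2 * (Tp : PowerSeries ℝ) ^ 2 := by
    unfold Rp'; push_cast; ring
  have e2 : (N0 : PowerSeries ℝ) = PowerSeries.C Cc * (Tp : PowerSeries ℝ) ^ 2
      - PowerSeries.C Cc * ((C cc - C (1 / 2) * X + C (cc / 16) * X ^ 2 : ℝ[X]) : PowerSeries ℝ)
        * (Lp : PowerSeries ℝ) ^ 2 - (Lp : PowerSeries ℝ) * (Tp : PowerSeries ℝ) ^ 2 := by
    unfold N0
    simp only [Polynomial.coe_sub, Polynomial.coe_mul, Polynomial.coe_pow, Polynomial.coe_C]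
  rw [e1, e2, Vs_eq, ← h1]
  linear_combination (PowerSeries.C Cc * (Tp : PowerSeries ℝ) ^ 2) * h2
    - ((Lp : PowerSeries ℝ) * (Tp : PowerSeries ℝ) ^ 2) * h3

lemma natDegree_N0 : N0.natDegree ≤ 5 := by
  unfold N0
  have h1 := natDegree_Tp
  have h2 := natDegree_Lp
  have h3 := (Polynomial.natDegree_pow_le (p := Lp) (n := 2))
  have h4 := (Polynomial.natDegree_pow_le (p := Tp) (n := 2))
  have h5 : (C cc - C (1 / 2) * X + C (cc / 16) * X ^ 2 : ℝ[X]).natDegree ≤ 2 := by compute_degree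
  have h6 : (C Cc : ℝ[X]).natDegree = 0 := natDegree_C _
  refine (natDegree_sub_le _ _).trans (max_le ((natDegree_sub_le _ _).trans (max_le ?_ ?_)) ?_)
  · exact natDegree_mul_le.trans (by omega)
  · refine natDegree_mul_le.trans ?_
    have h7 : (C Cc * (C cc - C (1 / 2) * X + C (cc / 16) * X ^ 2) : ℝ[X]).natDegree ≤ 0 + 2 :=
      natDegree_mul_le.trans (by omega)
    omega
  · exact natDegree_mul_le.trans (by omega)

lemma X_mul_wt : PowerSeries.X * PowerSeries.mk wt
    = (PowerSeries.X - 1) * Vs + PowerSeries.C (x0 0) := by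
  have h1 : (PowerSeries.X - 1) * Vs = PowerSeries.X * Vs - Vs := by ring
  rw [h1]
  ext n
  rcases n with _ | n
  · simp [Vs]
  · simp only [map_add, map_sub, PowerSeries.coeff_succ_X_mul, Vs, PowerSeries.coeff_mk,
      PowerSeries.coeff_C]
    simp [wt]

lemma coeff_Rp_mul_wt (j : ℕ) :
    PowerSeries.coeff (j + 7) ((Rp : PowerSeries ℝ) * PowerSeries.mk wt) = 0 := by
  have h1 : PowerSeries.X * ((Rp : PowerSeries ℝ) * PowerSeries.mk wt)
      = ((-(1 - X) ^ 2 * N0 + C (x0 0) * Rp : ℝ[X]) : PowerSeries ℝ) := by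
    have h2 := Rp'_mul_Vs
    have h3 := X_mul_wt
    have e1 : (Rp : PowerSeries ℝ) = (1 - PowerSeries.X) * (Rp' : PowerSeries ℝ) := by
      unfold Rp; push_cast; ring
    have e2 : ((-(1 - X) ^ 2 * N0 + C (x0 0) * Rp : ℝ[X]) : PowerSeries ℝ)
        = -(1 - PowerSeries.X) ^ 2 * (N0 : PowerSeries ℝ) + PowerSeries.C (x0 0) * (Rp : PowerSeries ℝ) := by
      push_cast; ring
    rw [e2, ← h2, e1]
    linear_combination ((1 - PowerSeries.X) * (Rp' : PowerSeries ℝ)) * h3
  have h4 : PowerSeries.coeff (j + 7) ((Rp : PowerSeries ℝ) * PowerSeries.mk wt)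
      = PowerSeries.coeff (j + 7 + 1) (PowerSeries.X * ((Rp : PowerSeries ℝ) * PowerSeries.mk wt)) := by
    rw [PowerSeries.coeff_succ_X_mul]
  rw [h4, h1, Polynomial.coeff_coe]
  apply Polynomial.coeff_eq_zero_of_natDegree_lt
  have h5 : (-(1 - X) ^ 2 * N0 + C (x0 0) * Rp : ℝ[X]).natDegree ≤ 7 := by
    refine (natDegree_add_le _ _).trans (max_le ?_ ?_)
    · refine natDegree_mul_le.trans ?_
      have h6 : (-(1 - X) ^ 2 : ℝ[X]).natDegree ≤ 2 := by compute_degree
      have h7 := natDegree_N0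
      omega
    · refine natDegree_mul_le.trans ?_
      have h6 : (C (x0 0) : ℝ[X]).natDegree = 0 := natDegree_C _
      have h7 := natDegree_Rp
      omega
  omega

/-! ### The polynomial `P`, the reversal of `R` -/

/-- The reversal of `Rp`. -/
noncomputable def Pp : ℝ[X] := Rp.reflect 7

lemma coeff_Pp {i : ℕ} (hi : i ≤ 7) : Pp.coeff i = Rp.coeff (7 - i) := by
  unfold Pp
  rw [Polynomial.coeff_reflect, Polynomial.revAt_le hi]

lemma coeff_Pp_eq_zero {i : ℕ} (hi : 8 ≤ i) : Pp.coeff i = 0 := by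
  unfold Pp
  rw [Polynomial.coeff_reflect, Polynomial.revAt_eq_self_of_lt (by omega)]
  exact coeff_Rp_eq_zero hi

/-- Reversal of the summation index. -/
lemma sum_Pp (g : ℕ → ℝ) : ∑ i ∈ Finset.range 8, Pp.coeff i * g i
    = ∑ a ∈ Finset.range 8, Rp.coeff a * g (7 - a) := by
  rw [← Finset.sum_range_reflect]
  apply Finset.sum_congr rfl
  intro a ha
  rw [Finset.mem_range] at ha
  rw [coeff_Pp (by omega)]
  congr 2
  omega

lemma sum_Pp_one : ∑ i ∈ Finset.range 8, Pp.coeff i = 0 := by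
  have h := sum_Pp (fun _ => 1)
  simp only [mul_one] at h
  rw [h, sum_coeff_eq_eval_one Rp (lt_of_le_of_lt natDegree_Rp (by norm_num))]
  unfold Rp
  simp

lemma sum_Pp_wt (j : ℕ) : ∑ i ∈ Finset.range 8, Pp.coeff i * wt (j + i) = 0 := by
  rw [sum_Pp (fun i => wt (j + i)), ← coeff_Rp_mul_wt j,
    coeff_poly_mul Rp (fun i hi => coeff_Rp_eq_zero hi)]
  apply Finset.sum_congr rfl
  intro a ha
  rw [Finset.mem_range] at ha
  rw [if_pos (by omega)]
  congr 2
  omega

/-! ### The optimal parameter -/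

lemma summable_mst_add : Summable (fun p : ℕ × ℕ => mst (p.1 + p.2)) := by
  rw [← Finset.HasAntidiagonal.sigmaAntidiagonalEquivProd.summable_iff]
  refine (summable_sigma_of_nonneg (f := (fun p : ℕ × ℕ => mst (p.1 + p.2)) ∘
    Finset.HasAntidiagonal.sigmaAntidiagonalEquivProd) (fun _ => (mst_pos _).le)).mpr
    ⟨fun n => Summable.of_finite, ?_⟩
  refine summable_succ_mul_mst.congr ?_
  intro n
  rw [tsum_fintype]
  have h : ∀ y : {x // x ∈ Finset.HasAntidiagonal.antidiagonal n},
      ((fun p : ℕ × ℕ => mst (p.1 + p.2)) ∘ Finset.HasAntidiagonal.sigmaAntidiagonalEquivProd)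
        ⟨n, y⟩ = mst n := by
    rintro ⟨⟨a, b⟩, hy⟩
    have hab : a + b = n := by
      rwa [Finset.HasAntidiagonal.mem_antidiagonal] at hy
    simp [hab]
  rw [Finset.sum_congr rfl (fun y _ => h y)]
  simp

lemma summable_mst_shift (n : ℕ) : Summable (fun j => mst (n + j)) := by
  have := (summable_nat_add_iff n).mpr summable_mst
  simpa [add_comm] using this

/-- The coefficients of the inverse series. -/
noncomputable def kf (j : ℕ) : ℝ := PowerSeries.coeff j kap

lemma mk_kf : PowerSeries.mk kf = kap := by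
  ext n; simp [kf]

lemma summable_kf_mul (n : ℕ) : Summable (fun j => kf j * mst (n + j)) := by
  obtain ⟨B, hB, h⟩ := kap_bound
  apply Summable.of_norm_bounded (g := fun j => B * mst (n + j)) ((summable_mst_shift n).mul_left B)
  intro j
  rw [Real.norm_eq_abs, abs_mul, abs_of_pos (mst_pos _)]
  exact mul_le_mul_of_nonneg_right (h j) (mst_pos _).le

/-- The optimal parameter sequence. -/
noncomputable def qst (n : ℕ) : ℝ := -∑' j, kf j * mst (n + 7 + j)

lemma summable_qst : Summable qst := by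
  obtain ⟨B, hB, h⟩ := kap_bound
  have h1 : Summable (fun n => ∑' j, mst (n + j)) := summable_mst_add.prod
  have h2 : Summable (fun n => B * ∑' j, mst (n + 7 + j)) :=
    ((summable_nat_add_iff 7).mpr h1).mul_left B
  apply Summable.of_norm_bounded h2
  intro n
  unfold qst
  rw [norm_neg, ← tsum_mul_left]
  refine tsum_of_norm_bounded ((summable_mst_shift (n + 7)).mul_left B).hasSum ?_
  intro j
  rw [Real.norm_eq_abs, abs_mul, abs_of_pos (mst_pos _)]
  exact mul_le_mul_of_nonneg_right (h j) (mst_pos _).le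

/-- The series of initial data. -/
noncomputable def M0s : PowerSeries ℝ := PowerSeries.mk mst + (Pp : PowerSeries ℝ) * PowerSeries.mk qst

lemma coeff_M0s {k : ℕ} (hk : 7 ≤ k) : PowerSeries.coeff k M0s = 0 := by
  have h1 := pairing Rp (fun i hi => coeff_Rp_eq_zero hi) (fun n => mst (k + n)) kf
    (by
      intro i
      have := summable_kf_mul (k + i)
      refine this.congr ?_
      intro j
      rw [mul_comm, show k + i + j = k + (j + i) by ring])
  rw [mk_kf, Rp_mul_kap] at h1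
  have h2 : HasSum (fun n => mst (k + n) * PowerSeries.coeff n (1 : PowerSeries ℝ)) (mst k) := by
    have := hasSum_single (f := fun n => mst (k + n) * PowerSeries.coeff n (1 : PowerSeries ℝ)) 0
      (by intro n hn; simp [PowerSeries.coeff_one, hn])
    simpa using this
  have h3 := h1.unique h2
  have h4 : ∑' j, kf j * ∑ i ∈ Finset.range 8, Rp.coeff i * mst (k + (j + i))
      = ∑ i ∈ Finset.range 8, Rp.coeff i * ∑' j, kf j * mst (k + i + j) := by
    have h5 : (fun j => kf j * ∑ i ∈ Finset.range 8, Rp.coeff i * mst (k + (j + i)))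
        = fun j => ∑ i ∈ Finset.range 8, Rp.coeff i * (kf j * mst (k + i + j)) := by
      funext j
      rw [Finset.mul_sum]
      refine Finset.sum_congr rfl (fun i _ => ?_)
      rw [show k + i + j = k + (j + i) by ring]; ring
    rw [h5, Summable.tsum_finsetSum (fun i _ => (summable_kf_mul (k + i)).mul_left _)]
    exact Finset.sum_congr rfl (fun i _ => tsum_mul_left)
  unfold M0s
  rw [map_add, PowerSeries.coeff_mk, coeff_poly_mul Pp (fun i hi => coeff_Pp_eq_zero hi),
    sum_Pp (fun i => if i ≤ k then qst (k - i) else 0)]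
  have h6 : ∑ a ∈ Finset.range 8, Rp.coeff a * (if 7 - a ≤ k then qst (k - (7 - a)) else 0)
      = -∑ i ∈ Finset.range 8, Rp.coeff i * ∑' j, kf j * mst (k + i + j) := by
    rw [← Finset.sum_neg_distrib]
    refine Finset.sum_congr rfl (fun a ha => ?_)
    rw [Finset.mem_range] at ha
    rw [if_pos (by omega)]
    unfold qst
    rw [show k - (7 - a) + 7 = k + a by omega]
    ring
  rw [h6, ← h4, h3]
  ring

/-- The polynomial of initial data. -/
noncomputable def M0 : ℝ[X] := PowerSeries.trunc 7 M0s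

lemma coe_M0 : (M0 : PowerSeries ℝ) = M0s := by
  ext n
  rw [Polynomial.coeff_coe, M0, PowerSeries.coeff_trunc]
  split_ifs with h
  · rfl
  · rw [coeff_M0s (by omega)]

/-- The sequence `m` attached to a parameter sequence `q`. -/
noncomputable def mf (q : ℕ → ℝ) (k : ℕ) : ℝ :=
  PowerSeries.coeff k (M0s - (Pp : PowerSeries ℝ) * PowerSeries.mk q)

lemma mf_eq (q : ℕ → ℝ) (k : ℕ) : mf q k = mst k
    + (PowerSeries.coeff k ((Pp : PowerSeries ℝ) * PowerSeries.mk qst)
      - PowerSeries.coeff k ((Pp : PowerSeries ℝ) * PowerSeries.mk q)) := by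
  unfold mf M0s
  rw [map_sub, map_add, PowerSeries.coeff_mk]; ring

lemma mf_qst : mf qst = mst := by
  funext k; rw [mf_eq]; ring

lemma mk_mf (q : ℕ → ℝ) : PowerSeries.mk (mf q) = M0s - (Pp : PowerSeries ℝ) * PowerSeries.mk q := by
  ext n; simp [mf]

/-- The total sum of the optimal sequence. -/
noncomputable def Stot : ℝ := ∑' k, mst k

lemma Stot_pos : 0 < Stot := summable_mst.tsum_pos (fun k => (mst_pos k).le) 0 (mst_pos 0)

lemma hasSum_Pp {f : ℕ → ℝ} (hf : Summable f) :
    HasSum (fun n => PowerSeries.coeff n ((Pp : PowerSeries ℝ) * PowerSeries.mk f)) 0 := by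
  have := hasSum_poly_mul Pp (fun i hi => coeff_Pp_eq_zero hi) hf
  rwa [sum_Pp_one, zero_mul] at this

lemma summable_wt_shift_mul {f : ℕ → ℝ} (hf : Summable f) (i : ℕ) :
    Summable (fun j => wt (j + i) * f j) := by
  apply Summable.of_norm_bounded (g := fun k => (4 * Cc + 2) * |f k|) (hf.abs.mul_left _)
  intro k
  rw [Real.norm_eq_abs, abs_mul]
  exact mul_le_mul_of_nonneg_right (abs_wt_le _) (abs_nonneg _)

lemma hasSum_wt_Pp {f : ℕ → ℝ} (hf : Summable f) :
    HasSum (fun n => wt n * PowerSeries.coeff n ((Pp : PowerSeries ℝ) * PowerSeries.mk f)) 0 := by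
  have := pairing Pp (fun i hi => coeff_Pp_eq_zero hi) wt f (summable_wt_shift_mul hf)
  simpa only [sum_Pp_wt, mul_zero, tsum_zero] using this

lemma hasSum_mf {q : ℕ → ℝ} (hq : Summable q) : HasSum (mf q) Stot := by
  have h := summable_mst.hasSum.add ((hasSum_Pp summable_qst).sub (hasSum_Pp hq))
  simp only [sub_zero, add_zero] at h
  rw [funext (mf_eq q)]
  exact h

lemma tsum_wt_mf {q : ℕ → ℝ} (hq : Summable q) : ∑' k, wt k * mf q k = vs 0 := by
  have h := (summable_wt_mul summable_mst.abs).hasSum.add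
    ((hasSum_wt_Pp summable_qst).sub (hasSum_wt_Pp hq))
  rw [value_mst] at h
  simp only [sub_zero, add_zero] at h
  have h2 : (fun k => wt k * mf q k) = fun k => wt k * mst k
      + (wt k * PowerSeries.coeff k ((Pp : PowerSeries ℝ) * PowerSeries.mk qst)
      - wt k * PowerSeries.coeff k ((Pp : PowerSeries ℝ) * PowerSeries.mk q)) := by
    funext k
    rw [mf_eq]; ring
  rw [h2]
  exact h.tsum_eq

/-! ### The two critical rows -/

/-- The normalising constant of the second row. -/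
noncomputable def cB : ℝ := 1 / (7 * Stot)

lemma cB_pos : 0 < cB := by
  unfold cB
  have := Stot_pos
  positivity

/-- First row of the closed loop. -/
noncomputable def fA (q : ℕ → ℝ) (k : ℕ) : ℝ :=
  PowerSeries.coeff k (1 - ((1 - X : ℝ[X]) : PowerSeries ℝ) * PowerSeries.mk (mf q))

/-- Second row of the closed loop. -/
noncomputable def fB (q : ℕ → ℝ) (k : ℕ) : ℝ :=
  PowerSeries.coeff k (((C cB * (C 8 - X) : ℝ[X]) : PowerSeries ℝ) * PowerSeries.mk (mf q))

lemma fA_zero (q : ℕ → ℝ) : fA q 0 = 1 - mf q 0 := by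
  unfold fA
  push_cast
  simp

lemma fA_succ (q : ℕ → ℝ) (k : ℕ) : fA q (k + 1) = mf q k - mf q (k + 1) := by
  unfold fA
  have : ((1 - X : ℝ[X]) : PowerSeries ℝ) * PowerSeries.mk (mf q)
      = PowerSeries.mk (mf q) - PowerSeries.X * PowerSeries.mk (mf q) := by
    push_cast; ring
  rw [this]
  simp [PowerSeries.coeff_succ_X_mul, PowerSeries.coeff_one]

lemma fB_zero (q : ℕ → ℝ) : fB q 0 = 8 * cB * mf q 0 := by
  unfold fB
  have : ((C cB * (C 8 - X) : ℝ[X]) : PowerSeries ℝ) * PowerSeries.mk (mf q)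
      = PowerSeries.C cB * (PowerSeries.C 8 * PowerSeries.mk (mf q)
        - PowerSeries.X * PowerSeries.mk (mf q)) := by
    push_cast; ring
  rw [this]
  simp only [PowerSeries.coeff_C_mul, map_sub, PowerSeries.coeff_mk, PowerSeries.coeff_zero_X_mul]
  ring

lemma fB_succ (q : ℕ → ℝ) (k : ℕ) : fB q (k + 1) = cB * (8 * mf q (k + 1) - mf q k) := by
  unfold fB
  have : ((C cB * (C 8 - X) : ℝ[X]) : PowerSeries ℝ) * PowerSeries.mk (mf q)
      = PowerSeries.C cB * (PowerSeries.C 8 * PowerSeries.mk (mf q)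
        - PowerSeries.X * PowerSeries.mk (mf q)) := by
    push_cast; ring
  rw [this]
  simp only [PowerSeries.coeff_C_mul, map_sub, PowerSeries.coeff_mk, PowerSeries.coeff_succ_X_mul]

lemma hasSum_fA {q : ℕ → ℝ} (hq : Summable q) : HasSum (fA q) 1 := by
  have hdeg : (1 - X : ℝ[X]).natDegree ≤ 1 := by compute_degree
  have h1 := hasSum_poly_mul (1 - X : ℝ[X]) (fun i hi =>
    Polynomial.coeff_eq_zero_of_natDegree_lt (by omega)) (hasSum_mf hq).summable
  rw [sum_coeff_eq_eval_one _ (by omega)] at h1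
  have h2 : HasSum (fun n => PowerSeries.coeff n (1 : PowerSeries ℝ)) 1 := by
    have := hasSum_single (f := fun n => PowerSeries.coeff n (1 : PowerSeries ℝ)) 0
      (by intro n hn; simp [PowerSeries.coeff_one, hn])
    simpa using this
  have h3 := h2.sub h1
  simp only [eval_sub, eval_one, eval_X, sub_self, zero_mul, sub_zero] at h3
  have h4 : fA q = fun n => PowerSeries.coeff n (1 : PowerSeries ℝ)
      - PowerSeries.coeff n (((1 - X : ℝ[X]) : PowerSeries ℝ) * PowerSeries.mk (mf q)) := by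
    funext n
    unfold fA
    rw [map_sub]
  rw [h4]
  exact h3

lemma hasSum_fB {q : ℕ → ℝ} (hq : Summable q) : HasSum (fB q) 1 := by
  have hdeg : (C cB * (C 8 - X) : ℝ[X]).natDegree ≤ 1 := by compute_degree
  have h1 := hasSum_poly_mul (C cB * (C 8 - X) : ℝ[X]) (fun i hi =>
    Polynomial.coeff_eq_zero_of_natDegree_lt (by omega)) (hasSum_mf hq).summable
  rw [sum_coeff_eq_eval_one _ (by omega), (hasSum_mf hq).tsum_eq] at h1
  have h2 : (C cB * (C 8 - X) : ℝ[X]).eval 1 * Stot = 1 := by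
    have h3 := Stot_pos
    simp only [eval_mul, eval_C, eval_sub, eval_X]
    unfold cB
    field_simp
    norm_num
  rw [h2] at h1
  exact h1

lemma nonneg_of_tsum_abs_le {f : ℕ → ℝ} {a : ℝ} (hf : HasSum f a) (h : ∑' k, |f k| ≤ a) (k : ℕ) :
    0 ≤ f k := by
  have h1 : HasSum (fun k => |f k| - f k) (∑' k, |f k| - a) := hf.summable.abs.hasSum.sub hf
  have h2 : |f k| - f k ≤ ∑' k, |f k| - a :=
    le_hasSum h1 k (fun j _ => by linarith [le_abs_self (f j)])
  have h3 : |f k| ≤ f k := by linarith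
  exact (abs_nonneg _).trans h3

lemma one_le_tsum_abs {f : ℕ → ℝ} {a : ℝ} (hf : HasSum f a) : a ≤ ∑' k, |f k| := by
  rw [← hf.tsum_eq]
  exact hf.summable.tsum_le_tsum (fun k => le_abs_self _) hf.summable.abs

lemma feas_of_rows {q : ℕ → ℝ} (hq : Summable q) (hA : ∑' k, |fA q k| ≤ 1)
    (hB : ∑' k, |fB q k| ≤ 1) : Feas (mf q) := by
  have h1 := nonneg_of_tsum_abs_le (hasSum_fA hq) hA
  have h2 := nonneg_of_tsum_abs_le (hasSum_fB hq) hB
  refine ⟨?_, ?_, ?_, (hasSum_mf hq).summable⟩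
  · have := h1 0
    rw [fA_zero] at this; linarith
  · intro k
    have := h1 (k + 1)
    rw [fA_succ] at this; linarith
  · intro k
    have := h2 (k + 1)
    rw [fB_succ] at this
    have h3 := nonneg_of_mul_nonneg_right this cB_pos
    linarith

lemma rowA_qst : ∑' k, |fA qst k| = 1 := by
  have h : ∀ k, |fA qst k| = fA qst k := by
    intro k
    apply abs_of_nonneg
    rcases k with _ | k
    · rw [fA_zero, mf_qst]; have := mst_le_one 0; linarith
    · rw [fA_succ, mf_qst]; have := mst_succ_le k; linarith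
  simp only [h]
  exact (hasSum_fA summable_qst).tsum_eq

lemma rowB_qst : ∑' k, |fB qst k| = 1 := by
  have h : ∀ k, |fB qst k| = fB qst k := by
    intro k
    apply abs_of_nonneg
    rcases k with _ | k
    · rw [fB_zero, mf_qst]
      exact mul_nonneg (mul_nonneg (by norm_num) cB_pos.le) (mst_pos 0).le
    · rw [fB_succ, mf_qst]
      exact mul_nonneg cB_pos.le (by have := mst_le_mul_succ k; linarith)
  simp only [h]
  exact (hasSum_fB summable_qst).tsum_eq

/-- The key conclusion: a parameter sequence for which both critical rows have norm at most `1`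
has a second row which does not decay exponentially. -/
lemma no_exp_decay_rows {q : ℕ → ℝ} (hq : Summable q) (hA : ∑' k, |fA q k| ≤ 1)
    (hB : ∑' k, |fB q k| ≤ 1) {M ρ : ℝ} (hM : 0 < M) (hρ : ρ < 1)
    (hb : ∀ k, |fB q k| ≤ M * ρ ^ k) : False := by
  have hF := feas_of_rows hq hA hB
  have habs : Summable (fun k => |mf q k|) := (hasSum_mf hq).summable.abs
  obtain ⟨h0, hrig⟩ := hF.rigid habs (tsum_wt_mf hq)
  have hρ0 : 0 ≤ ρ := by
    have h1 := (abs_nonneg _).trans (hb 1)
    rw [pow_one] at h1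
    exact nonneg_of_mul_nonneg_right h1 hM
  have hc := cB_pos
  refine no_exp_decay hF h0 hrig hρ0 hρ (M := M / (7 * cB)) (by positivity) ?_
  intro k hk
  have h1 := (le_abs_self _).trans (hb (k + 1))
  rw [fB_succ, hrig k hk] at h1
  have h2 : M * ρ ^ (k + 1) ≤ M * ρ ^ k :=
    mul_le_mul_of_nonneg_left (pow_le_pow_of_le_one hρ0 hρ.le (by omega)) hM.le
  rw [div_mul_eq_mul_div, le_div_iff₀ (by positivity)]
  linarith

/-! ### The instance -/

/-- The constant of the third, inactive row. -/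
noncomputable def eps : ℝ := 1 / (1 + ∑' k, |qst k|)

lemma eps_pos : 0 < eps := by
  unfold eps
  have : 0 ≤ ∑' k, |qst k| := tsum_nonneg (fun _ => abs_nonneg _)
  positivity

/-- The polynomials forming `H`. -/
noncomputable def hpoly : Fin 3 → ℝ[X] := ![1 - (1 - X) * M0, C cB * (C 8 - X) * M0, 0]

/-- The polynomials forming `U`. -/
noncomputable def upoly : Fin 3 → ℝ[X] := ![-((1 - X) * Pp), C cB * (C 8 - X) * Pp, C eps]

/-- The finitely supported sequence whose transform is a given matrix of polynomials. -/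
noncomputable def polySeq {p q : ℕ} (g : Fin p → Fin q → ℝ[X]) : MSeq p q :=
  fun k => Matrix.of (fun i j => (g i j).coeff k)

lemma polySeq_apply {p q : ℕ} (g : Fin p → Fin q → ℝ[X]) (k : ℕ) (i : Fin p) (j : Fin q) :
    polySeq g k i j = (g i j).coeff k := rfl

/-- The data `H`. -/
noncomputable def Hdat : MSeq 3 1 := polySeq (fun i _ => hpoly i)

/-- The data `U`. -/
noncomputable def Udat : MSeq 3 1 := polySeq (fun i _ => upoly i)

/-- The data `V`. -/
def Vdat : MSeq 1 1 := unitSeq 1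

lemma conv_unit {p n : ℕ} (X : MSeq p n) : conv X (unitSeq n) = X := by
  funext k
  unfold conv
  rw [Finset.sum_eq_single k]
  · simp [unitSeq]
  · intro t ht hne
    have hlt : t < k := by
      have := Finset.mem_range.mp ht
      omega
    have h0 : k - t ≠ 0 := by omega
    simp [unitSeq, h0]
  · intro h; exact absurd (Finset.mem_range.mpr (Nat.lt_succ_self k)) h

lemma closedLoop_apply (Q : MSeq 1 1) (k : ℕ) (i : Fin 3) (j : Fin 1) :
    (Hdat - conv (conv Udat Q) Vdat) k i j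
      = PowerSeries.coeff k ((hpoly i : PowerSeries ℝ)
        - (upoly i : PowerSeries ℝ) * PowerSeries.mk (fun k => Q k 0 0)) := by
  have hj : j = 0 := Subsingleton.elim _ _
  subst hj
  unfold Vdat
  rw [conv_unit, Pi.sub_apply, Matrix.sub_apply, map_sub, Polynomial.coeff_coe,
    PowerSeries.coeff_mul, Finset.Nat.sum_antidiagonal_eq_sum_range_succ_mk]
  unfold conv
  rw [Matrix.sum_apply]
  congr 1
  apply Finset.sum_congr rfl
  intro t _
  rw [Matrix.mul_apply]
  simp [Udat, polySeq_apply]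

lemma rowA_eq (q : ℕ → ℝ) (k : ℕ) :
    PowerSeries.coeff k ((hpoly 0 : PowerSeries ℝ) - (upoly 0 : PowerSeries ℝ) * PowerSeries.mk q)
      = fA q k := by
  unfold fA
  congr 1
  rw [mk_mf, ← coe_M0]
  simp only [hpoly, upoly, Matrix.cons_val_zero]
  push_cast
  ring

lemma rowB_eq (q : ℕ → ℝ) (k : ℕ) :
    PowerSeries.coeff k ((hpoly 1 : PowerSeries ℝ) - (upoly 1 : PowerSeries ℝ) * PowerSeries.mk q)
      = fB q k := by
  unfold fB
  congr 1
  rw [mk_mf, ← coe_M0]
  simp only [hpoly, upoly, Matrix.cons_val_one, Matrix.cons_val_zero]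
  push_cast
  ring

lemma rowC_eq (q : ℕ → ℝ) (k : ℕ) :
    PowerSeries.coeff k ((hpoly 2 : PowerSeries ℝ) - (upoly 2 : PowerSeries ℝ) * PowerSeries.mk q)
      = -(eps * q k) := by
  have h1 : hpoly 2 = 0 := rfl
  have h2 : upoly 2 = C eps := rfl
  rw [h1, h2]
  push_cast
  simp

lemma norm1_closedLoop (Q : MSeq 1 1) :
    norm1 (Hdat - conv (conv Udat Q) Vdat)
      = ⨆ i : Fin 3, ∑' k, |PowerSeries.coeff k ((hpoly i : PowerSeries ℝ)
        - (upoly i : PowerSeries ℝ) * PowerSeries.mk (fun k => Q k 0 0))| := by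
  unfold norm1
  congr 1
  funext i
  rw [Fin.sum_univ_one]
  simp only [closedLoop_apply]

lemma row_le_norm1 (Q : MSeq 1 1) (i : Fin 3) :
    ∑' k, |PowerSeries.coeff k ((hpoly i : PowerSeries ℝ)
        - (upoly i : PowerSeries ℝ) * PowerSeries.mk (fun k => Q k 0 0))|
      ≤ norm1 (Hdat - conv (conv Udat Q) Vdat) := by
  rw [norm1_closedLoop]
  exact le_ciSup (f := fun i : Fin 3 => ∑' k, |PowerSeries.coeff k ((hpoly i : PowerSeries ℝ)
        - (upoly i : PowerSeries ℝ) * PowerSeries.mk (fun k => Q k 0 0))|)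
    (Set.finite_range _).bddAbove i

/-- The optimal solution. -/
noncomputable def Qopt : MSeq 1 1 := fun k _ _ => qst k

lemma norm1_Qopt_le : norm1 (Hdat - conv (conv Udat Qopt) Vdat) ≤ 1 := by
  rw [norm1_closedLoop]
  apply ciSup_le
  intro i
  have hq : (fun k => Qopt k 0 0) = qst := rfl
  rw [hq]
  fin_cases i
  · show ∑' k, |PowerSeries.coeff k ((hpoly 0 : PowerSeries ℝ)
      - (upoly 0 : PowerSeries ℝ) * PowerSeries.mk qst)| ≤ 1
    simp only [rowA_eq]
    exact rowA_qst.le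
  · show ∑' k, |PowerSeries.coeff k ((hpoly 1 : PowerSeries ℝ)
      - (upoly 1 : PowerSeries ℝ) * PowerSeries.mk qst)| ≤ 1
    simp only [rowB_eq]
    exact rowB_qst.le
  · show ∑' k, |PowerSeries.coeff k ((hpoly 2 : PowerSeries ℝ)
      - (upoly 2 : PowerSeries ℝ) * PowerSeries.mk qst)| ≤ 1
    simp only [rowC_eq, abs_neg, abs_mul, abs_of_pos eps_pos]
    rw [tsum_mul_left]
    have h : 0 ≤ ∑' k, |qst k| := tsum_nonneg (fun _ => abs_nonneg _)
    unfold eps
    rw [one_div, inv_mul_le_iff₀ (by linarith)]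
    linarith

lemma one_le_norm1 {Q : MSeq 1 1} (hQ : IsL1 Q) :
    1 ≤ norm1 (Hdat - conv (conv Udat Q) Vdat) := by
  refine le_trans ?_ (row_le_norm1 Q 0)
  simp only [rowA_eq]
  exact one_le_tsum_abs (hasSum_fA (hQ 0 0).of_abs)

lemma isL1_Qopt : IsL1 Qopt := fun _ _ => summable_qst.abs

lemma isOptimal_Qopt : IsOptimal Hdat Udat Vdat Qopt :=
  ⟨isL1_Qopt, fun _ hQ' => norm1_Qopt_le.trans (one_le_norm1 hQ')⟩

lemma not_expDecay {Q : MSeq 1 1} (hQ : IsOptimal Hdat Udat Vdat Q) :
    ¬ ExpDecay (Hdat - conv (conv Udat Q) Vdat) := by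
  rintro ⟨M, ρ, hM, hρ, hb⟩
  have hle : norm1 (Hdat - conv (conv Udat Q) Vdat) ≤ 1 :=
    (hQ.2 Qopt isL1_Qopt).trans norm1_Qopt_le
  have hs : Summable (fun k => Q k 0 0) := (hQ.1 0 0).of_abs
  have hA := (row_le_norm1 Q 0).trans hle
  have hB := (row_le_norm1 Q 1).trans hle
  simp only [rowA_eq] at hA
  simp only [rowB_eq] at hB
  refine no_exp_decay_rows hs hA hB hM hρ ?_
  intro k
  have := hb k 1 0
  rwa [closedLoop_apply, rowB_eq] at this

lemma isL1_polySeq {p q : ℕ} (g : Fin p → Fin q → ℝ[X]) : IsL1 (polySeq g) := by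
  intro i j
  apply summable_of_ne_finset_zero (s := Finset.range ((g i j).natDegree + 1))
  intro k hk
  rw [Finset.mem_range] at hk
  rw [polySeq_apply, Polynomial.coeff_eq_zero_of_natDegree_lt (by omega), abs_zero]

lemma isRational_polySeq {p q : ℕ} (g : Fin p → Fin q → ℝ[X]) : IsRational (polySeq g) := by
  refine ⟨fun i j => algebraMap ℝ[X] (RatFunc ℝ) (g i j), ?_⟩
  intro i j
  rw [RatFunc.denom_algebraMap, RatFunc.num_algebraMap, Polynomial.coe_one, mul_one]
  ext n
  simp [polySeq_apply]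

lemma unitSeq_eq (n : ℕ) : unitSeq n = polySeq (fun i j => if i = j then 1 else 0) := by
  funext k
  ext i j
  rw [polySeq_apply]
  unfold unitSeq
  by_cases hk : k = 0
  · subst hk
    by_cases hij : i = j
    · subst hij; simp
    · simp [hij]
  · by_cases hij : i = j
    · simp [hk, hij, Polynomial.coeff_one]
    · simp [hk, hij]

/-- Negated form of the question: there are rational `H`, `U`, `V` for which the minimum is
attained but no optimal closed-loop map decays exponentially. Moreover `U` is left invertible and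
`V` is right invertible within the absolutely summable sequences, so no zeros on the unit circle
(or anywhere in the closed unit disc) are involved. -/
theorem result :
    ∃ (p q r s : ℕ) (_ : 1 ≤ p) (_ : 1 ≤ q) (_ : 1 ≤ r) (_ : 1 ≤ s)
      (H : MSeq p q) (U : MSeq p r) (V : MSeq s q),
      IsL1 H ∧ IsL1 U ∧ IsL1 V ∧ IsRational H ∧ IsRational U ∧ IsRational V ∧
      (∃ Q : MSeq r s, IsOptimal H U V Q) ∧
      (∀ Q : MSeq r s, IsOptimal H U V Q → ¬ ExpDecay (H - conv (conv U Q) V)) ∧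
      (∃ W : MSeq r p, IsL1 W ∧ conv W U = unitSeq r) ∧
      (∃ W : MSeq q s, IsL1 W ∧ conv V W = unitSeq s) := by
  refine ⟨3, 1, 1, 1, by norm_num, le_refl 1, le_refl 1, le_refl 1, Hdat, Udat, Vdat,
    isL1_polySeq _, isL1_polySeq _, ?_, isRational_polySeq _, isRational_polySeq _, ?_,
    ⟨Qopt, isOptimal_Qopt⟩, fun Q hQ => not_expDecay hQ, ?_, ?_⟩
  · unfold Vdat
    rw [unitSeq_eq]
    exact isL1_polySeq _
  · unfold Vdat
    rw [unitSeq_eq]
    exact isRational_polySeq _
  · refine ⟨polySeq (fun _ j => if j = 2 then C (1 / eps) else 0), isL1_polySeq _, ?_⟩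
    funext k
    unfold conv
    rw [Finset.sum_eq_single 0]
    · ext a b
      rw [Matrix.mul_apply, Fin.sum_univ_three]
      have hab : a = b := Subsingleton.elim _ _
      subst hab
      have h2 : upoly 2 = C eps := rfl
      have he := eps_pos.ne'
      by_cases hk : k = 0
      · subst hk
        simp [Udat, polySeq_apply, h2, unitSeq, he]
      · simp [Udat, polySeq_apply, h2, unitSeq, hk, Polynomial.coeff_C]
    · intro t _ ht
      ext a b
      rw [Matrix.mul_apply, Fin.sum_univ_three]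
      simp [polySeq_apply, Polynomial.coeff_C, ht]
    · intro h; exact absurd (Finset.mem_range.mpr (Nat.succ_pos k)) h
  · refine ⟨unitSeq 1, ?_, ?_⟩
    · rw [unitSeq_eq]
      exact isL1_polySeq _
    · exact conv_unit _

end Pool.Agent.Results.MP_7f3d09_an.SlowDecay
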